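import Pool.Agent.Lib.MP_b06295_co.Comm

/-!
# The case where some element of the group is supported in a component of the tame graph

Then the stabiliser of the component fixes the boundary pointwise.
-/

set_option autoImplicit false

namespace Pool.Agent.Lib.MP_b06295_co

open Relation

variable {V : Type} {k N : ℕ} {X : SimpleGraph V} {G : Subgroup (Equiv.Perm V)}

/-- The elements of the group supported in a set. -/
def supp (G : Subgroup (Equiv.Perm V)) (K : Set V) : Subgroup (Equiv.Perm V) where
  carrier := {a | a ∈ G ∧ ∀ x, x ∉ K → a x = x}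
  mul_mem' := by
    rintro a b ⟨ha, ha'⟩ ⟨hb, hb'⟩
    refine ⟨G.mul_mem ha hb, fun x hx => ?_⟩
    rw [Equiv.Perm.mul_apply, hb' x hx, ha' x hx]
  one_mem' := ⟨G.one_mem, fun _ _ => rfl⟩
  inv_mem' := by
    rintro a ⟨ha, ha'⟩
    refine ⟨G.inv_mem ha, fun x hx => ?_⟩
    have := congrArg (a⁻¹ : Equiv.Perm V) (ha' x hx)
    rw [inv_app] at this
    exact this.symm

theorem mem_supp {K : Set V} {a : Equiv.Perm V} :
    a ∈ supp G K ↔ a ∈ G ∧ ∀ x, x ∉ K → a x = x := Iff.rfl

theorem supp_le (K : Set V) : supp G K ≤ setStab G K := by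
  rintro a ⟨ha, ha'⟩
  refine ⟨ha, fun x => ⟨fun hx => ?_, fun hx => ?_⟩⟩
  · by_contra hcon
    rw [ha' x hcon] at hx
    exact hcon hx
  · by_contra hcon
    have := a.injective (ha' _ hcon)
    exact hcon (this.symm ▸ hx)

namespace Obj

/-- The stabiliser of the component fixes the boundary. -/
theorem bd_fixed [Finite V] (hN : NCond k N) (h : Obj k N X G) {v : V}
    {a : Equiv.Perm V} (ha : a ∈ supp G (comp X G v)) (ha1 : a ≠ 1) :
    ∀ g ∈ setStab G (comp X G v), ∀ n ∈ bd X G v, g n = n := by
  classical
  by_cases hc : (bd X G v).ncard < N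
  · intro g hg n hn
    have hbig : Big N (Nat.card (setStab G (comp X G v))) :=
      h.big.of_dvd (Subgroup.card_dvd_of_le fun g hg => hg.1)
    rcases orb_card hbig n with h1 | h1
    · exact h1 g hg
    · exfalso
      have h2 : orb (setStab G (comp X G v)) n ⊆ bd X G v := by
        rintro _ ⟨u, hu, rfl⟩
        exact h.bd_smul hu hn
      have := Set.ncard_le_ncard h2 (Set.toFinite _)
      omega
  · exfalso
    let A := supp G (comp X G v)
    have hAG : ∀ q : A, q.1 ∈ G := fun q => q.2.1
    have hbigA : Big N (Nat.card A) :=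
      h.big.of_dvd (Subgroup.card_dvd_of_le fun g hg => hg.1)
    have hcardA : N ≤ Nat.card A := by
      rcases hbigA.one_or_le dvd_rfl Nat.card_pos.ne' with h1 | h1
      · exfalso
        have := (Nat.card_eq_one_iff_unique.1 h1).1
        exact ha1 (congrArg Subtype.val (Subsingleton.elim (⟨a, ha⟩ : A) 1))
      · exact h1
    have hX : ∀ (q : A) (x y : V), X.Adj x y → X.Adj (q • x) (q • y) :=
      fun q x y hxy => h.adj q.1 (hAG q) x y hxy
    have hinv : ∀ (q : A), ∀ x ∈ comp X G v, q • x ∈ comp X G v :=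
      fun q x hx => ((supp_le _ q.2).2 x).2 hx
    have hfree : ∀ (q : A), ∀ x ∈ comp X G v, q • x = x → q = 1 := by
      intro q x hx e
      apply Subtype.ext
      ext y
      by_cases hy : y ∈ comp X G v
      · exact stab_comp (comp_trans (comp_symm hx) hy) (hAG q) e
      · exact q.2.2 y hy
    obtain ⟨T, hTK, hT, hT1, hT2⟩ := exists_transversal hX (comp_conn v) hinv
    obtain ⟨hB, hd⟩ := translates hX hfree hTK hT hT2
    have hTK' : ∀ (q : A), ∀ x ∈ (fun x => q • x) '' T, x ∈ comp X G v := by
      rintro q _ ⟨t, ht, rfl⟩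
      exact hinv q t (hTK ht)
    have htouch : ∀ (q : A), ∀ n ∈ bd X G v, Touch X {n} ((fun x => q • x) '' T) := by
      rintro q n ⟨hn, x, hx, hxn⟩
      obtain ⟨q0, t, ht, rfl⟩ := hT1 x hx
      refine ⟨n, rfl, q • t, ⟨t, ht, rfl⟩, ?_⟩
      have e1 := hX (q * q0⁻¹) _ _ hxn
      have e2 : (q * q0⁻¹) • (q0 • t) = q • t := by
        rw [smul_smul]
        simp
      have e3 : (q * q0⁻¹) • n = n := (q * q0⁻¹).2.2 n hn
      rw [e2, e3] at e1
      exact e1.symm
    let I := (bd X G v) ⊕ A
    let B : I → Set V := fun i => match i with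
      | Sum.inl n => {n.1}
      | Sum.inr q => (fun x => q • x) '' T
    have hB1 : ∀ n : bd X G v, B (Sum.inl n) = {n.1} := fun _ => rfl
    have hB2 : ∀ q : A, B (Sum.inr q) = (fun x => q • x) '' T := fun _ => rfl
    have hconn : ∀ i, Conn X (B i) := by
      rintro (n | q)
      · exact conn_singleton _
      · exact hB q
    have hdisj : ∀ i j, i ≠ j → Disjoint (B i) (B j) := by
      have key : ∀ (n : bd X G v) (q : A), Disjoint (B (Sum.inl n)) (B (Sum.inr q)) := by
        intro n q
        rw [hB1, hB2, Set.disjoint_singleton_left]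
        exact fun e => n.2.1 (hTK' q _ e)
      rintro (a | b) (a' | b') hne
      · rw [hB1, hB1, Set.disjoint_singleton]
        exact fun e => hne (by rw [Subtype.ext e])
      · exact key a b'
      · exact (key a' b).symm
      · exact hd b b' fun e => hne (by rw [e])
    have hne : Nonempty I := ⟨Sum.inr 1⟩
    apply h.nok
    refine hasK_of_family (I := I) hconn hdisj ?_
    have hNk := hN.pow
    rintro (n | q)
    · have hsub : Set.range (Sum.inr : A → I) ⊆ {j | (Sum.inl n : I) ≠ j ∧
          Touch X (B (Sum.inl n)) (B j)} := by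
        rintro _ ⟨q, rfl⟩
        exact ⟨by simp, htouch q n n.2⟩
      have h1 := Set.ncard_le_ncard hsub (Set.toFinite _)
      have h2 : (Set.range (Sum.inr : A → I)).ncard = Nat.card A := by
        rw [← Set.image_univ, Set.ncard_image_of_injective _ Sum.inr_injective, Set.ncard_univ]
      refine le_trans ?_ h1
      omega
    · have hsub : Set.range (Sum.inl : bd X G v → I) ⊆ {j | (Sum.inr q : I) ≠ j ∧
          Touch X (B (Sum.inr q)) (B j)} := by
        rintro _ ⟨n, rfl⟩
        exact ⟨by simp, (htouch q n n.2).symm⟩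
      have h1 := Set.ncard_le_ncard hsub (Set.toFinite _)
      have h2 : (Set.range (Sum.inl : bd X G v → I)).ncard = (bd X G v).ncard := by
        rw [← Set.image_univ, Set.ncard_image_of_injective _ Sum.inl_injective, Set.ncard_univ,
          Nat.card_coe_set_eq]
      refine le_trans ?_ h1
      omega

end Obj

end Pool.Agent.Lib.MP_b06295_co
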