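import Pool.Agent.Lib.MP_b06295_co.Comm

/-!
# The case where no element of the group is supported in a component of the tame graph

We show that this case does not occur.
-/

set_option autoImplicit false

namespace Pool.Agent.Lib.MP_b06295_co

open Relation

variable {V : Type} {k N : ℕ} {X : SimpleGraph V} {G : Subgroup (Equiv.Perm V)}

theorem orb_of_not_fix [Finite V] (h : Obj k N X G) {a b : V}
    (hne : ¬ ∀ g ∈ stab G a, g b = b) : N ≤ (orb (stab G a) b).ncard := by
  have hbig : Big N (Nat.card (stab G a)) :=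
    h.big.of_dvd (Subgroup.card_dvd_of_le fun g hg => hg.1)
  rcases orb_card hbig b with h1 | h1
  · exact absurd h1 hne
  · exact h1

namespace Obj

/-- The star of a translate `a` of `y`: the centre `a` and the corresponding translates of `v`. -/
def star (G : Subgroup (Equiv.Perm V)) (v y a : V) : Set V :=
  insert a {x | ∃ g ∈ G, g y = a ∧ g v = x}

theorem mem_star {v y a x : V} : x ∈ star G v y a ↔ x = a ∨ ∃ g ∈ G, g y = a ∧ g v = x :=
  Iff.rfl

theorem star_conn (h : Obj k N X G) {v y : V} (hvy : X.Adj v y) (a : V) :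
    Conn X (star G v y a) := by
  refine conn_star ?_
  rintro x ⟨g, hg, hga, rfl⟩
  rw [← hga]
  exact (h.adj g hg _ _ hvy).symm

theorem star_leaf {v y : V} (hv : v ∈ tame X G) (hvy : X.Adj v y)
    {g r : Equiv.Perm V} (hg : g ∈ G) (hr : r ∈ G) (e : g v = r v) : g y = r y := by
  have e1 : (r⁻¹ * g) v = v := by rw [Equiv.Perm.mul_apply, e, inv_app]
  have e2 := hv.2 _ (G.mul_mem (G.inv_mem hr) hg) e1 y hvy
  rw [Equiv.Perm.mul_apply] at e2
  have e3 := congrArg r e2
  rwa [app_inv] at e3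

theorem orb_tame (h : Obj k N X G) {a b : V} (hb : b ∈ orb G a) (ht : b ∈ tame X G) :
    a ∈ tame X G := by
  obtain ⟨g, hg, rfl⟩ := hb
  have := h.tame_smul (G.inv_mem hg) ht
  rwa [inv_app] at this

theorem star_disjoint (h : Obj k N X G) {v y : V} (hv : v ∈ tame X G) (hy : y ∉ tame X G)
    (hvy : X.Adj v y) {a b : V} (ha : a ∈ orb G y) (hb : b ∈ orb G y) (hab : a ≠ b) :
    Disjoint (star G v y a) (star G v y b) := by
  rw [Set.disjoint_left]
  rintro x (rfl | ⟨g, hg, hga, rfl⟩) (e | ⟨r, hr, hra, e⟩)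
  · exact hab e
  · exact hy (h.orb_tame ha (e ▸ h.tame_smul hr hv))
  · exact hy (h.orb_tame hb (e ▸ h.tame_smul hg hv))
  · exact hab (hga.symm.trans ((star_leaf hv hvy hg hr e.symm).trans hra))

/-- The first use of stars: all stars of the orbit of `y`. If all translates of one vertex `z` of
the orbit of `y` under the stabiliser of `y` belong to stars touching the star of `y` then `z` is
fixed by the stabiliser of `y`. -/
theorem star_fix [Finite V] (hN : NCond k N) (h : Obj k N X G) {v y : V} (hv : v ∈ tame X G)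
    (hy : y ∉ tame X G) (hvy : X.Adj v y) {z : V} (hz : z ∈ orb G y)
    (htouch : Touch X (star G v y y) (star G v y z)) : ∀ g ∈ stab G y, g z = z := by
  classical
  by_contra hcon
  have hcard := orb_of_not_fix h hcon
  have hzy : z ≠ y := by
    rintro rfl
    exact hcon fun g hg => hg.2
  have hne : Nonempty (orb G y) := ⟨⟨y, 1, G.one_mem, rfl⟩⟩
  apply h.nok
  refine hasK_of_family (I := orb G y) (B := fun a => star G v y a.1)
    (fun a => h.star_conn hvy a.1)
    (fun a b hab => h.star_disjoint hv hy hvy a.2 b.2 fun e => hab (Subtype.ext e)) ?_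
  have hNk := hN.pow
  have hsm : ∀ g ∈ G, ∀ a x, x ∈ star G v y a → g x ∈ star G v y (g a) := by
    rintro g hg a x (rfl | ⟨r, hr, hra, rfl⟩)
    · exact Or.inl rfl
    · exact Or.inr ⟨g * r, G.mul_mem hg hr, by rw [Equiv.Perm.mul_apply, hra], rfl⟩
  rintro ⟨a, g, hg, rfl⟩
  let f : orb (stab G y) z → orb G y := fun c => ⟨g c.1, by
    obtain ⟨c, r, hr, rfl⟩ := c
    obtain ⟨d, hd, rfl⟩ := hz
    exact ⟨g * r * d, G.mul_mem (G.mul_mem hg hr.1) hd, rfl⟩⟩
  have hf : Function.Injective f := by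
    intro c d hcd
    exact Subtype.ext (g.injective (congrArg Subtype.val hcd))
  have hsub : Set.range f ⊆ {j | (⟨g y, g, hg, rfl⟩ : orb G y) ≠ j ∧
      Touch X (star G v y (g y)) (star G v y j.1)} := by
    rintro _ ⟨⟨c, r, hr, rfl⟩, rfl⟩
    have hry : r y = y := hr.2
    refine ⟨fun e => ?_, ?_⟩
    · have e1 : g y = g (r z) := congrArg Subtype.val e
      have e2 := g.injective e1
      exact hzy (r.injective (by rw [← e2, hry]))
    · obtain ⟨p, hp, q, hq, hpq⟩ := htouch
      refine ⟨g (r p), ?_, g (r q), hsm g hg _ _ (hsm r hr.1 _ _ hq),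
        h.adj g hg _ _ (h.adj r hr.1 _ _ hpq)⟩
      have := hsm g hg _ _ (hsm r hr.1 _ _ hp)
      rwa [hry] at this
  have h1 := Set.ncard_le_ncard hsub (Set.toFinite _)
  have h2 : (Set.range f).ncard = (orb (stab G y) z).ncard := by
    rw [← Set.image_univ, Set.ncard_image_of_injective _ hf, Set.ncard_univ,
      Nat.card_coe_set_eq]
  refine le_trans ?_ h1
  omega

/-- The second use of stars. -/
theorem star_or [Finite V] (hN : NCond k N) (h : Obj k N X G) {v y z : V} (hv : v ∈ tame X G)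
    (hy : y ∉ tame X G) (hvy : X.Adj v y) (hz : z ∉ tame X G) (hvz : X.Adj v z)
    (hzy : z ∉ orb G y) : (∀ g ∈ stab G y, g z = z) ∨ ∀ g ∈ stab G z, g y = y := by
  classical
  by_contra hcon
  rw [not_or] at hcon
  have hcard1 := orb_of_not_fix h hcon.1
  have hcard2 := orb_of_not_fix h hcon.2
  let I := (orb G y) ⊕ (orb G z)
  let B : I → Set V := fun i => match i with
    | Sum.inl a => star G v y a.1
    | Sum.inr b => {b.1}
  have hB1 : ∀ a : orb G y, B (Sum.inl a) = star G v y a.1 := fun _ => rfl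
  have hB2 : ∀ b : orb G z, B (Sum.inr b) = {b.1} := fun _ => rfl
  have hsep : ∀ a ∈ orb G y, ∀ b ∈ orb G z, a ≠ b := by
    rintro _ ⟨g, hg, rfl⟩ _ ⟨r, hr, rfl⟩ e
    apply hzy
    refine ⟨r⁻¹ * g, G.mul_mem (G.inv_mem hr) hg, ?_⟩
    rw [Equiv.Perm.mul_apply, e, inv_app]
  have hconn : ∀ i, Conn X (B i) := by
    rintro (a | b)
    · exact h.star_conn hvy a.1
    · exact conn_singleton _
  have hdisj : ∀ i j, i ≠ j → Disjoint (B i) (B j) := by
    have key : ∀ (a : orb G y) (b : orb G z), Disjoint (B (Sum.inl a)) (B (Sum.inr b)) := by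
      intro a b
      rw [hB1, hB2, Set.disjoint_singleton_right]
      rintro (e | ⟨g, hg, -, e⟩)
      · exact hsep a a.2 b b.2 e.symm
      · exact hz (h.orb_tame b.2 (e ▸ h.tame_smul hg hv))
    rintro (a | b) (a' | b') hne
    · exact h.star_disjoint hv hy hvy a.2 a'.2 fun e => hne (by rw [Subtype.ext e])
    · exact key a b'
    · exact (key a' b).symm
    · rw [hB2, hB2, Set.disjoint_singleton]
      exact fun e => hne (by rw [Subtype.ext e])
  have hne : Nonempty I := ⟨Sum.inl ⟨y, 1, G.one_mem, rfl⟩⟩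
  apply h.nok
  refine hasK_of_family (I := I) hconn hdisj ?_
  have hNk := hN.pow
  rintro (⟨a, g, hg, hga⟩ | ⟨b, g, hg, hgb⟩)
  · let f : orb (stab G y) z → I := fun c => Sum.inr ⟨g c.1, by
      obtain ⟨c, r, hr, rfl⟩ := c
      exact ⟨g * r, G.mul_mem hg hr.1, rfl⟩⟩
    have hf : Function.Injective f := by
      intro c d hcd
      have h1 := congrArg Subtype.val (Sum.inr.inj hcd)
      exact Subtype.ext (g.injective h1)
    have hsub : Set.range f ⊆ {j | (Sum.inl ⟨a, g, hg, hga⟩ : I) ≠ j ∧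
        Touch X (B (Sum.inl ⟨a, g, hg, hga⟩)) (B j)} := by
      rintro _ ⟨⟨c, r, hr, rfl⟩, rfl⟩
      refine ⟨by simp [f], ?_⟩
      refine ⟨(g * r) v, ?_, g (r z), rfl, ?_⟩
      · rw [hB1]
        refine Or.inr ⟨g * r, G.mul_mem hg hr.1, ?_, rfl⟩
        have e3 : r y = y := hr.2
        change (g * r) y = a
        rw [Equiv.Perm.mul_apply, e3, hga]
      · exact h.adj _ hg _ _ (h.adj _ hr.1 _ _ hvz)
    have h1 := Set.ncard_le_ncard hsub (Set.toFinite _)
    have h2 : (Set.range f).ncard = (orb (stab G y) z).ncard := by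
      rw [← Set.image_univ, Set.ncard_image_of_injective _ hf, Set.ncard_univ,
        Nat.card_coe_set_eq]
    omega
  · let f : orb (stab G z) y → I := fun c => Sum.inl ⟨g c.1, by
      obtain ⟨c, r, hr, rfl⟩ := c
      exact ⟨g * r, G.mul_mem hg hr.1, rfl⟩⟩
    have hf : Function.Injective f := by
      intro c d hcd
      have h1 := congrArg Subtype.val (Sum.inl.inj hcd)
      exact Subtype.ext (g.injective h1)
    have hsub : Set.range f ⊆ {j | (Sum.inr ⟨b, g, hg, hgb⟩ : I) ≠ j ∧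
        Touch X (B (Sum.inr ⟨b, g, hg, hgb⟩)) (B j)} := by
      rintro _ ⟨⟨c, r, hr, rfl⟩, rfl⟩
      refine ⟨by simp [f], ?_⟩
      refine Touch.symm ⟨(g * r) v, ?_, b, rfl, ?_⟩
      · rw [hB1]
        exact Or.inr ⟨g * r, G.mul_mem hg hr.1, rfl, rfl⟩
      · have e2 := h.adj _ hg _ _ (h.adj _ hr.1 _ _ hvz)
        have e3 : r z = z := hr.2
        rwa [e3, hgb] at e2
    have h1 := Set.ncard_le_ncard hsub (Set.toFinite _)
    have h2 : (Set.range f).ncard = (orb (stab G z) y).ncard := by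
      rw [← Set.image_univ, Set.ncard_image_of_injective _ hf, Set.ncard_univ,
        Nat.card_coe_set_eq]
    omega

/-- F5: the boundary is not empty. -/
theorem bd_nonempty [Finite V] (hN3 : 3 ≤ N) (h : Obj k N X G)
    (hB : ∀ v ∈ tame X G, ∀ a ∈ G, (∀ x, x ∉ comp X G v → a x = x) → a = 1)
    {v : V} (hv : v ∈ tame X G) : (bd X G v).Nonempty := by
  by_contra hcon
  rw [Set.not_nonempty_iff_eq_empty] at hcon
  have hb : ∀ x ∈ comp X G v, ∀ n, n ∉ comp X G v → ¬ X.Adj x n := by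
    intro x hx n hn hxn
    have : n ∈ bd X G v := ⟨hn, x, hx, hxn⟩
    rw [hcon] at this
    exact this
  obtain ⟨g, hg, hgv⟩ := hv.1
  by_cases hgK : g v ∈ comp X G v
  · have hH := h.setStab_of_mem hg (comp_self v) hgK
    obtain ⟨τ, hτ, h1, h2⟩ := h.patch hg hH.2 fun x hx n hn hxn => absurd hxn (hb x hx n hn)
    have h3 := hB v hv τ hτ h2
    have h4 := h1 v (comp_self v)
    rw [h3] at h4
    exact hgv h4.symm
  · have h1 : ∀ x ∈ comp X G v, g x ∉ comp X G v := by
      intro x hx hgx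
      exact hgK (((h.setStab_of_mem hg hx hgx).2 v).2 (comp_self v))
    exact h.no_swap hN3 ⟨v, comp_self v⟩ hg h1 (fun x hx y hy => hb x hx _ (h1 y hy))
      fun x hx n hn hxn => absurd hxn (hb x hx n hn)

/-- F6, F7: there is a neighbour of `v` on the boundary whose stabiliser in the stabiliser of the
component fixes `v`. -/
theorem exists_P [Finite V] (hN : NCond k N) (h : Obj k N X G)
    (hA : ∀ v w, X.Adj v w → (∀ g ∈ G, g v = v ↔ g w = w) → ∃ g ∈ G, g v = w)
    (hB : ∀ v ∈ tame X G, ∀ a ∈ G, (∀ x, x ∉ comp X G v → a x = x) → a = 1)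
    {v : V} (hv : v ∈ tame X G) : ∃ y, X.Adj v y ∧ y ∉ comp X G v ∧
      ∀ g ∈ setStab G (comp X G v), g y = y → g v = v := by
  classical
  obtain ⟨y0, hy0, hmin⟩ := Set.exists_min_image (bd X G v)
    (fun y => Nat.card (stab (setStab G (comp X G v)) y)) (Set.toFinite _)
    (h.bd_nonempty hN.three hB hv)
  have hfix : ∀ y' ∈ bd X G v, ∀ g ∈ setStab G (comp X G v), g y0 = y0 → g y' = y' := by
    intro y' hy'
    rcases h.chain hN hA hv hy0 hy' with h1 | h1
    · exact h1
    · have hle : stab (setStab G (comp X G v)) y' ≤ stab (setStab G (comp X G v)) y0 :=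
        fun g hg => ⟨hg.1, h1 g hg.1 hg.2⟩
      have heq := Subgroup.eq_of_le_of_card_ge hle (hmin y' hy')
      intro g hg hgy
      have : g ∈ stab (setStab G (comp X G v)) y0 := ⟨hg, hgy⟩
      rw [← heq] at this
      exact this.2
  have hP0 : ∀ g ∈ setStab G (comp X G v), g y0 = y0 → ∀ x ∈ comp X G v, g x = x := by
    intro g hg hgy x hx
    obtain ⟨τ, hτ, h1, h2⟩ := h.patch hg.1 hg.2 fun x hx n hn hxn =>
      hfix n ⟨hn, x, hx, hxn⟩ g hg hgy
    have h3 := hB v hv τ hτ h2
    rw [← h1 x hx, h3]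
    rfl
  obtain ⟨hy0K, x, hx, hxy⟩ := hy0
  obtain ⟨c, hc, hcv⟩ := regular hA (comp_symm hx)
  have hcH := h.setStab_of_mem hc hx (by rw [hcv]; exact comp_self v)
  refine ⟨c y0, ?_, ?_, ?_⟩
  · have := h.adj c hc _ _ hxy
    rwa [hcv] at this
  · exact fun e => hy0K ((hcH.2 y0).1 e)
  · intro g hg hgy
    have h1 := hP0 (c⁻¹ * g * c) ((setStab G (comp X G v)).mul_mem
      ((setStab G (comp X G v)).mul_mem ((setStab G (comp X G v)).inv_mem hcH) hg) hcH) (by
        simp only [Equiv.Perm.mul_apply, hgy, inv_app]) x hx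
    simp only [Equiv.Perm.mul_apply, hcv] at h1
    have h2 := congrArg c h1
    rwa [app_inv, hcv] at h2

/-- The case without elements supported in components does not occur. -/
theorem no_B2 [Finite V] (hN : NCond k N) (h : Obj k N X G)
    (hA : ∀ v w, X.Adj v w → (∀ g ∈ G, g v = v ↔ g w = w) → ∃ g ∈ G, g v = w)
    (hB : ∀ v ∈ tame X G, ∀ a ∈ G, (∀ x, x ∉ comp X G v → a x = x) → a = 1)
    (hne : (moved G).Nonempty) : False := by
  classical
  obtain ⟨v, hv⟩ := h.exists_tame hN hne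
  obtain ⟨y, hyP, hmin⟩ := Set.exists_min_image {y | X.Adj v y ∧ y ∉ comp X G v ∧
      ∀ g ∈ setStab G (comp X G v), g y = y → g v = v}
    (fun y => Nat.card (stab G y)) (Set.toFinite _) (h.exists_P hN hA hB hv)
  obtain ⟨hvy, hyK, hP⟩ := hyP
  have hnt : ∀ z, X.Adj v z → z ∉ comp X G v → z ∉ tame X G :=
    fun z hvz hzK ht => hzK (comp_nbr hv (comp_self v) hvz ht)
  have hyt := hnt y hvy hyK
  have hystar : ∀ g ∈ G, g v ∈ star G v y (g y) := fun g hg => Or.inr ⟨g, hg, rfl, rfl⟩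
  -- F8
  have F8 : ∀ c ∈ G, X.Adj v (c v) → ∀ r ∈ stab G y, r (c y) = c y := by
    intro c hc hcv
    exact h.star_fix hN hv hyt hvy ⟨c, hc, rfl⟩
      ⟨v, hystar 1 G.one_mem, c v, hystar c hc, hcv⟩
  -- F9
  have F9 : ∀ w, ReflTransGen (Step X (tame X G)) v w → ∀ c ∈ G, c v = w →
      ∀ r ∈ stab G y, r (c y) = c y := by
    intro w hw
    induction hw with
    | refl =>
      intro c hc hcv r hr
      have h1 := hv.2 c hc hcv y hvy
      rw [h1]
      exact hr.2
    | @tail w w' h1 h2 ih =>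
      intro c' hc' hcv' r hr
      obtain ⟨c, hc, hcv⟩ := regular hA (v := v) (w := w) h1
      have ih1 := ih c hc hcv
      have h3 : X.Adj v ((c⁻¹ * c') v) := by
        have := h.adj c⁻¹ (G.inv_mem hc) _ _ h2.2.2
        rw [Equiv.Perm.mul_apply, hcv']
        rwa [← hcv, inv_app] at this
      have h4 := F8 (c⁻¹ * c') (G.mul_mem (G.inv_mem hc) hc') h3 (c⁻¹ * r * c)
        ⟨G.mul_mem (G.mul_mem (G.inv_mem hc) hr.1) hc, by
          change (c⁻¹ * r * c) y = y
          simp only [Equiv.Perm.mul_apply]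
          rw [ih1 r hr, inv_app]⟩
      simp only [Equiv.Perm.mul_apply, app_inv] at h4
      exact c⁻¹.injective h4
  -- F10
  have F10 : ∀ z, X.Adj v z → z ∉ comp X G v → ∀ r ∈ stab G y, r z = z := by
    intro z hvz hzK
    by_cases hzo : z ∈ orb G y
    · exact h.star_fix hN hv hyt hvy hzo ⟨v, hystar 1 G.one_mem, z, Or.inl rfl, hvz⟩
    · rcases h.star_or hN hv hyt hvy (hnt z hvz hzK) hvz hzo with h1 | h1
      · exact h1
      · have hle : stab G z ≤ stab G y := fun g hg => ⟨hg.1, h1 g hg⟩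
        have h2 := hmin z ⟨hvz, hzK, fun g hg hgz => hP g hg (h1 g ⟨hg.1, hgz⟩)⟩
        have heq := Subgroup.eq_of_le_of_card_ge hle h2
        intro r hr
        rw [← heq] at hr
        exact hr.2
  -- F11
  have F11 : ∀ x ∈ comp X G v, ∀ n, n ∉ comp X G v → X.Adj x n → ∀ r ∈ stab G y, r n = n := by
    intro x hx n hn hxn r hr
    obtain ⟨c, hc, hcv⟩ := regular hA hx
    have hcH := h.setStab_of_mem hc (comp_self v) (by rw [hcv]; exact hx)
    have h1 : X.Adj v (c⁻¹ n) := by
      have := h.adj c⁻¹ (G.inv_mem hc) _ _ hxn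
      rwa [← hcv, inv_app] at this
    have h2 : c⁻¹ n ∉ comp X G v := fun e => hn (by
      have := (hcH.2 (c⁻¹ n)).2 e
      rwa [app_inv] at this)
    have h3 := F10 _ h1 h2 (c⁻¹ * r * c) ⟨G.mul_mem (G.mul_mem (G.inv_mem hc) hr.1) hc, by
      change (c⁻¹ * r * c) y = y
      simp only [Equiv.Perm.mul_apply]
      rw [F9 x hx c hc hcv r hr, inv_app]⟩
    simp only [Equiv.Perm.mul_apply, app_inv] at h3
    exact c⁻¹.injective h3
  -- F12
  obtain ⟨g, hg, hgv⟩ : ∃ g ∈ stab G y, g v ≠ v := by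
    by_contra hcon
    push Not at hcon
    obtain ⟨g, hg, hgv⟩ := hA v y hvy fun g hg =>
      ⟨fun e => hv.2 g hg e y hvy, fun e => hcon g ⟨hg, e⟩⟩
    exact hyt (hgv ▸ h.tame_smul hg hv)
  have hout : ∀ x ∈ comp X G v, g x ∉ comp X G v := by
    intro x hx hgx
    exact hgv (hP g (h.setStab_of_mem hg.1 hx hgx) hg.2)
  exact h.no_swap hN.three ⟨v, comp_self v⟩ hg.1 hout
    (fun x hx z hz hxz => hout z hz (comp_nbr hv hx hxz (h.tame_smul hg.1 (comp_tame hv hz))))
    (fun x hx n hn hxn => F11 x hx n hn hxn g hg)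

end Obj

end Pool.Agent.Lib.MP_b06295_co
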