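import Mathlib

/-!
# Minors: connected sets and clique minors

`Conn X s`: the set `s` of vertices of `X` is nonempty and connected in `X`.
`HasK k X`: there are `k` pairwise disjoint connected sets, any two of which are joined by an edge.
-/

set_option autoImplicit false

namespace Pool.Agent.Lib.MP_b06295_co

open Relation

variable {V : Type} (X : SimpleGraph V)

/-- One step inside `s`. -/
def Step (s : Set V) (x y : V) : Prop := x ∈ s ∧ y ∈ s ∧ X.Adj x y

/-- `s` is nonempty and connected in `X`. -/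
def Conn (s : Set V) : Prop :=
  s.Nonempty ∧ ∀ a ∈ s, ∀ b ∈ s, ReflTransGen (Step X s) a b

/-- There is an edge between `s` and `t`. -/
def Touch (s t : Set V) : Prop := ∃ x ∈ s, ∃ y ∈ t, X.Adj x y

/-- `K_k` is a minor of `X`. -/
def HasK (k : ℕ) : Prop :=
  ∃ B : Fin k → Set V, (∀ i, Conn X (B i)) ∧ (∀ i j, i ≠ j → Disjoint (B i) (B j)) ∧
    ∀ i j, i ≠ j → Touch X (B i) (B j)

variable {X}

theorem Step.symm {s : Set V} {x y : V} (h : Step X s x y) : Step X s y x :=
  ⟨h.2.1, h.1, h.2.2.symm⟩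

theorem step_mono {s t : Set V} (h : s ⊆ t) {x y : V} (hx : Step X s x y) : Step X t x y :=
  ⟨h hx.1, h hx.2.1, hx.2.2⟩

theorem rtg_symm {s : Set V} {x y : V} (h : ReflTransGen (Step X s) x y) :
    ReflTransGen (Step X s) y x := by
  induction h with
  | refl => exact ReflTransGen.refl
  | tail _ h2 ih => exact ReflTransGen.head h2.symm ih

theorem rtg_mono {s t : Set V} (h : s ⊆ t) {x y : V} (hx : ReflTransGen (Step X s) x y) :
    ReflTransGen (Step X t) x y := by
  induction hx with
  | refl => exact ReflTransGen.refl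
  | tail _ h2 ih => exact ih.tail (step_mono h h2)

theorem rtg_mem {s : Set V} {x y : V} (h : ReflTransGen (Step X s) x y) (hx : x ∈ s) : y ∈ s := by
  cases h with
  | refl => exact hx
  | tail _ h2 => exact h2.2.1

theorem conn_of_base {s : Set V} {a : V} (ha : a ∈ s)
    (h : ∀ b ∈ s, ReflTransGen (Step X s) a b) : Conn X s :=
  ⟨⟨a, ha⟩, fun x hx y hy => (rtg_symm (h x hx)).trans (h y hy)⟩

theorem conn_singleton (a : V) : Conn X {a} := by
  refine conn_of_base (Set.mem_singleton a) fun b hb => ?_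
  rw [Set.mem_singleton_iff.1 hb]

theorem Touch.symm {s t : Set V} (h : Touch X s t) : Touch X t s := by
  obtain ⟨x, hx, y, hy, hxy⟩ := h
  exact ⟨y, hy, x, hx, hxy.symm⟩

theorem Touch.mono {s t s' t' : Set V} (h : Touch X s t) (hs : s ⊆ s') (ht : t ⊆ t') :
    Touch X s' t' := by
  obtain ⟨x, hx, y, hy, hxy⟩ := h
  exact ⟨x, hs hx, y, ht hy, hxy⟩

/-- A star: a centre and some neighbours of it. -/
theorem conn_star {c : V} {s : Set V} (h : ∀ x ∈ s, X.Adj c x) : Conn X (insert c s) := by
  refine conn_of_base (Set.mem_insert c s) fun b hb => ?_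
  rcases hb with hb | hb
  · rw [hb]
  · exact ReflTransGen.single ⟨Set.mem_insert c s, Set.mem_insert_of_mem c hb, h b hb⟩

theorem conn_insert {s : Set V} (hs : Conn X s) {x y : V} (hx : x ∈ s) (hxy : X.Adj x y) :
    Conn X (insert y s) := by
  refine conn_of_base (Set.mem_insert_of_mem y hx) fun b hb => ?_
  rcases hb with hb | hb
  · rw [hb]
    exact ReflTransGen.single ⟨Set.mem_insert_of_mem y hx, Set.mem_insert y s, hxy⟩
  · exact rtg_mono (Set.subset_insert y s) (hs.2 x hx b hb)

/-- If a connected set meets `s` and is not contained in it, then some edge leaves `s`. -/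
theorem exists_exit {t : Set V} (ht : Conn X t) {s : Set V} {a b : V} (ha : a ∈ t) (has : a ∈ s)
    (hb : b ∈ t) (hbs : b ∉ s) : ∃ x ∈ t, x ∈ s ∧ ∃ y ∈ t, y ∉ s ∧ X.Adj x y := by
  by_contra hcon
  push Not at hcon
  have : ∀ c, ReflTransGen (Step X t) a c → c ∈ s := by
    intro c hc
    induction hc with
    | refl => exact has
    | tail _ h2 ih =>
      by_contra hn
      exact hcon _ h2.1 ih _ h2.2.1 hn h2.2.2
  exact hbs (this b (ht.2 a ha b hb))

/-- The graph of a family of vertex sets. -/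
def quotGraph {I : Type} (X : SimpleGraph V) (B : I → Set V) : SimpleGraph I where
  Adj i j := i ≠ j ∧ Touch X (B i) (B j)
  symm := ⟨fun _ _ h => ⟨h.1.symm, h.2.symm⟩⟩
  loopless := ⟨fun _ h => h.1 rfl⟩

theorem conn_biUnion {I : Type} {B : I → Set V} (hB : ∀ i, Conn X (B i)) {s : Set I}
    (hs : Conn (quotGraph X B) s) : Conn X (⋃ i ∈ s, B i) := by
  obtain ⟨⟨i0, hi0⟩, hs2⟩ := hs
  obtain ⟨a0, ha0⟩ := (hB i0).1
  have key : ∀ j, ReflTransGen (Step (quotGraph X B) s) i0 j → ∀ b ∈ B j,
      ReflTransGen (Step X (⋃ i ∈ s, B i)) a0 b := by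
    intro j hj
    induction hj with
    | refl =>
      intro b hb
      exact rtg_mono (Set.subset_biUnion_of_mem (u := B) hi0) ((hB i0).2 a0 ha0 b hb)
    | @tail j l h1 h2 ih =>
      intro b hb
      obtain ⟨hj, hl, -, x, hx, y, hy, hxy⟩ := h2
      have e1 := ih x hx
      have e2 : Step X (⋃ i ∈ s, B i) x y :=
        ⟨Set.mem_biUnion hj hx, Set.mem_biUnion hl hy, hxy⟩
      exact (e1.tail e2).trans
        (rtg_mono (Set.subset_biUnion_of_mem (u := B) hl) ((hB l).2 y hy b hb))
  refine conn_of_base (Set.mem_biUnion hi0 ha0) fun b hb => ?_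
  obtain ⟨j, hj, hb⟩ := Set.mem_iUnion₂.1 hb
  exact key j (hs2 i0 hi0 j hj) b hb

/-- A clique minor of the graph of a family of disjoint connected sets. -/
theorem hasK_of_quot {k : ℕ} {I : Type} {B : I → Set V} (hB : ∀ i, Conn X (B i))
    (hd : ∀ i j, i ≠ j → Disjoint (B i) (B j)) (h : HasK (quotGraph X B) k) : HasK X k := by
  obtain ⟨C, h1, h2, h3⟩ := h
  refine ⟨fun m => ⋃ i ∈ C m, B i, fun m => conn_biUnion hB (h1 m), fun m n hmn => ?_,
    fun m n hmn => ?_⟩
  · rw [Set.disjoint_left]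
    intro x hx hx'
    obtain ⟨i, hi, hxi⟩ := Set.mem_iUnion₂.1 hx
    obtain ⟨j, hj, hxj⟩ := Set.mem_iUnion₂.1 hx'
    by_cases hij : i = j
    · subst hij
      exact Set.disjoint_left.1 (h2 m n hmn) hi hj
    · exact Set.disjoint_left.1 (hd i j hij) hxi hxj
  · obtain ⟨i, hi, j, hj, hij⟩ := h3 m n hmn
    exact hij.2.mono (Set.subset_biUnion_of_mem (u := B) hi)
      (Set.subset_biUnion_of_mem (u := B) hj)

theorem conn_image {W : Type} {Y : SimpleGraph W} (f : W → V)
    (hf : ∀ x y, Y.Adj x y → X.Adj (f x) (f y)) {s : Set W} (hs : Conn Y s) :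
    Conn X (f '' s) := by
  obtain ⟨⟨a, ha⟩, h⟩ := hs
  refine conn_of_base (Set.mem_image_of_mem f ha) fun b hb => ?_
  obtain ⟨c, hc, rfl⟩ := hb
  have := h a ha c hc
  clear hc
  induction this with
  | refl => exact ReflTransGen.refl
  | tail _ h2 ih =>
    exact ih.tail ⟨Set.mem_image_of_mem f h2.1, Set.mem_image_of_mem f h2.2.1, hf _ _ h2.2.2⟩

/-- Clique minors pass to larger graphs. -/
theorem HasK.map {k : ℕ} {W : Type} {Y : SimpleGraph W} (f : W → V) (hinj : Function.Injective f)
    (hf : ∀ x y, Y.Adj x y → X.Adj (f x) (f y)) (h : HasK Y k) : HasK X k := by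
  obtain ⟨B, h1, h2, h3⟩ := h
  refine ⟨fun i => f '' B i, fun i => conn_image f hf (h1 i), fun i j hij => ?_,
    fun i j hij => ?_⟩
  · exact (Set.disjoint_image_iff hinj).2 (h2 i j hij)
  · obtain ⟨x, hx, y, hy, hxy⟩ := h3 i j hij
    exact ⟨f x, Set.mem_image_of_mem f hx, f y, Set.mem_image_of_mem f hy, hf _ _ hxy⟩

/-- The subgraph induced on a set. -/
theorem HasK.of_induce {k : ℕ} {s : Set V} (h : HasK (X.induce s) k) : HasK X k :=
  h.map (fun x : s => (x : V)) Subtype.val_injective fun _ _ h' => h'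

/-- Add a vertex set adjacent to everything. -/
theorem HasK.succ {k : ℕ} {U : Set V} (hU : Conn X U) {s : Set V} (hUs : Disjoint U s)
    (hadj : ∀ x ∈ s, Touch X U {x}) (h : HasK (X.induce s) k) : HasK X (k + 1) := by
  obtain ⟨B, h1, h2, h3⟩ := h
  have hBs : ∀ i, (fun x : s => (x : V)) '' B i ⊆ s := by
    rintro i _ ⟨x, -, rfl⟩
    exact x.2
  refine ⟨Fin.cons U fun i => (fun x : s => (x : V)) '' B i, ?_, ?_, ?_⟩
  · intro i
    refine Fin.cases ?_ (fun i => ?_) i
    · simpa using hU
    · simp only [Fin.cons_succ]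
      exact conn_image (X := X) (Y := X.induce s) (fun x : s => (x : V)) (fun _ _ h' => h') (h1 i)
  · intro i j
    refine Fin.cases ?_ (fun i => ?_) i <;> refine Fin.cases ?_ (fun j => ?_) j
    · intro h
      exact absurd rfl h
    · intro _
      simp only [Fin.cons_zero, Fin.cons_succ]
      exact hUs.mono_right (hBs j)
    · intro _
      simp only [Fin.cons_zero, Fin.cons_succ]
      exact (hUs.mono_right (hBs i)).symm
    · intro hij
      simp only [Fin.cons_succ]
      exact (Set.disjoint_image_iff Subtype.val_injective).2 (h2 i j fun e => hij (by rw [e]))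
  · have key : ∀ i, Touch X U ((fun x : s => (x : V)) '' B i) := by
      intro i
      obtain ⟨x, hx⟩ := (h1 i).1
      obtain ⟨u, hu, y, hy, huy⟩ := hadj x x.2
      rw [Set.mem_singleton_iff] at hy
      subst hy
      exact ⟨u, hu, x, Set.mem_image_of_mem _ hx, huy⟩
    intro i j
    refine Fin.cases ?_ (fun i => ?_) i <;> refine Fin.cases ?_ (fun j => ?_) j
    · intro h
      exact absurd rfl h
    · intro _
      simp only [Fin.cons_zero, Fin.cons_succ]
      exact key j
    · intro _
      simp only [Fin.cons_zero, Fin.cons_succ]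
      exact (key i).symm
    · intro hij
      simp only [Fin.cons_succ]
      obtain ⟨x, hx, y, hy, hxy⟩ := h3 i j fun e => hij (by rw [e])
      exact ⟨x, Set.mem_image_of_mem _ hx, y, Set.mem_image_of_mem _ hy, hxy⟩

/-- `Conn` implies connectivity of the induced subgraph. -/
theorem Conn.induce {s : Set V} (h : Conn X s) : (X.induce s).Connected := by
  obtain ⟨⟨a, ha⟩, h⟩ := h
  have : Nonempty s := ⟨⟨a, ha⟩⟩
  refine SimpleGraph.Connected.mk ?_
  rintro ⟨x, hx⟩ ⟨y, hy⟩
  have key : ∀ z, ReflTransGen (Step X s) x z → ∀ hz : z ∈ s,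
      (X.induce s).Reachable ⟨x, hx⟩ ⟨z, hz⟩ := by
    intro z hz
    induction hz with
    | refl => exact fun _ => SimpleGraph.Reachable.refl _
    | @tail u w h1 h2 ih =>
      intro hw
      exact (ih h2.1).trans (SimpleGraph.Adj.reachable (show (X.induce s).Adj ⟨u, h2.1⟩ ⟨w, hw⟩ from
        h2.2.2))
  exact key y (h x hx y hy) hy

theorem conn_of_induce {s : Set V} (h : (X.induce s).Connected) : Conn X s := by
  obtain ⟨a⟩ := h.nonempty
  have hp := h.preconnected
  refine conn_of_base a.2 fun b hb => ?_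
  obtain ⟨w⟩ := hp a ⟨b, hb⟩
  have key : ∀ (c d : s), (X.induce s).Walk c d → ReflTransGen (Step X s) (c : V) (d : V) := by
    intro c d w
    induction w with
    | nil => exact ReflTransGen.refl
    | cons hadj _ ih => exact ReflTransGen.head ⟨Subtype.coe_prop _, Subtype.coe_prop _, hadj⟩ ih
  exact key _ _ w

end Pool.Agent.Lib.MP_b06295_co
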