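import Pool.Agent.Lib.MP_b06295_co.Obj

/-!
# The stabiliser of a component of the tame graph

It acts semiregularly, hence as an abelian group, on the component. Chain condition for the
stabilisers of the boundary vertices.
-/

set_option autoImplicit false

namespace Pool.Agent.Lib.MP_b06295_co

open Relation

variable {V : Type} {k N : ℕ} {X : SimpleGraph V} {G : Subgroup (Equiv.Perm V)}

/-- The orbit of a point. -/
def orb (H : Subgroup (Equiv.Perm V)) (a : V) : Set V := {b | ∃ g ∈ H, g a = b}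

/-- The stabiliser of a point in a subgroup. -/
def stab (H : Subgroup (Equiv.Perm V)) (a : V) : Subgroup (Equiv.Perm V) :=
  H ⊓ MulAction.stabilizer (Equiv.Perm V) a

theorem mem_stab {H : Subgroup (Equiv.Perm V)} {a : V} {g : Equiv.Perm V} :
    g ∈ stab H a ↔ g ∈ H ∧ g a = a := Iff.rfl

theorem orb_card [Finite V] {H : Subgroup (Equiv.Perm V)} (h : Big N (Nat.card H)) (a : V) :
    (∀ g ∈ H, g a = a) ∨ N ≤ (orb H a).ncard := by
  rcases orbit_card (α := V) h a with h1 | h1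
  · exact Or.inl fun g hg => h1 ⟨g, hg⟩
  · right
    have : orb H a = MulAction.orbit H a := by
      ext b
      constructor
      · rintro ⟨g, hg, rfl⟩
        exact ⟨⟨g, hg⟩, rfl⟩
      · rintro ⟨⟨g, hg⟩, rfl⟩
        exact ⟨g, hg, rfl⟩
    rw [this]
    exact h1

/-- The stabiliser of a set. -/
def setStab (G : Subgroup (Equiv.Perm V)) (K : Set V) : Subgroup (Equiv.Perm V) where
  carrier := {g | g ∈ G ∧ ∀ x, g x ∈ K ↔ x ∈ K}
  mul_mem' := by
    rintro a b ⟨ha, ha'⟩ ⟨hb, hb'⟩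
    exact ⟨G.mul_mem ha hb, fun x => by rw [Equiv.Perm.mul_apply, ha', hb']⟩
  one_mem' := ⟨G.one_mem, fun _ => Iff.rfl⟩
  inv_mem' := by
    rintro a ⟨ha, ha'⟩
    exact ⟨G.inv_mem ha, fun x => by rw [← ha', app_inv]⟩

theorem mem_setStab {K : Set V} {g : Equiv.Perm V} :
    g ∈ setStab G K ↔ g ∈ G ∧ ∀ x, g x ∈ K ↔ x ∈ K := Iff.rfl

namespace Obj

theorem comp_eq {v w : V} (h : w ∈ comp X G v) : comp X G w = comp X G v := by
  ext x
  exact ⟨fun hx => comp_trans h hx, fun hx => comp_trans (comp_symm h) hx⟩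

theorem setStab_of_mem (h : Obj k N X G) {v : V} {g : Equiv.Perm V} (hg : g ∈ G) {x : V}
    (hx : x ∈ comp X G v) (hgx : g x ∈ comp X G v) : g ∈ setStab G (comp X G v) := by
  refine ⟨hg, fun y => ⟨fun hy => ?_, fun hy => ?_⟩⟩
  · have h1 : g y ∈ comp X G (g x) := comp_trans (comp_symm hgx) hy
    have h2 := h.comp_smul (G.inv_mem hg) h1
    rw [inv_app, inv_app] at h2
    exact comp_trans hx h2
  · have h1 : y ∈ comp X G x := comp_trans (comp_symm hx) hy
    exact comp_trans hgx (h.comp_smul hg h1)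

/-- Elements of the stabiliser of a component commute on the component. -/
theorem comp_comm [Finite V] (hN : NCond k N) (h : Obj k N X G) {v : V}
    {g u : Equiv.Perm V} (hg : g ∈ setStab G (comp X G v)) (hu : u ∈ setStab G (comp X G v))
    {x : V} (hx : x ∈ comp X G v) : g (u x) = u (g x) := by
  let K := comp X G v
  let θ : setStab G K →* Equiv.Perm K :=
    { toFun := fun g => g.1.subtypePerm fun x => g.2.2 x
      map_one' := by ext; rfl
      map_mul' := by intro a b; ext; rfl }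
  have hbig : Big N (Nat.card θ.range) := by
    refine h.big.of_dvd ((Subgroup.card_range_dvd θ).trans ?_)
    exact Subgroup.card_dvd_of_le fun g hg => hg.1
  have hconn : Conn (X.induce K) Set.univ := by
    have h1 := comp_conn (X := X) (G := G) v
    refine conn_of_base (a := ⟨v, comp_self v⟩) (Set.mem_univ _) fun b _ => ?_
    have key : ∀ c, ReflTransGen (Step X K) v c → ∀ hc : c ∈ K,
        ReflTransGen (Step (X.induce K) Set.univ) ⟨v, comp_self v⟩ ⟨c, hc⟩ := by
      intro c hc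
      induction hc with
      | refl => exact fun _ => ReflTransGen.refl
      | tail _ h2 ih =>
        intro hc
        exact (ih h2.1).tail ⟨Set.mem_univ _, Set.mem_univ _, h2.2.2⟩
    exact key b (h1.2 v (comp_self v) b b.2) b.2
  have hcomm := free_comm (X := X.induce K) (Q := θ.range) hN hbig (by
      rintro ⟨_, ⟨q, rfl⟩⟩ x y hxy
      exact h.adj q.1 q.2.1 _ _ hxy) hconn (fun _ _ _ => Set.mem_univ _) (by
      rintro ⟨_, ⟨q, rfl⟩⟩ x _ hqx
      have h1 : q.1 x.1 = x.1 := congrArg Subtype.val hqx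
      have h2 : ∀ y ∈ K, q.1 y = y := by
        intro y hy
        exact stab_comp (comp_trans (comp_symm x.2) hy) q.2.1 h1
      apply Subtype.ext
      ext y
      exact h2 y y.2) (fun hk => h.nok hk.of_induce)
  have h1 := hcomm ⟨θ ⟨g, hg⟩, ⟨_, rfl⟩⟩ ⟨θ ⟨u, hu⟩, ⟨_, rfl⟩⟩
  have h2 := congrArg (fun p => ((p.1 : Equiv.Perm K) ⟨x, hx⟩).1) h1
  exact h2

/-- Elements of the stabiliser of a component commute on the boundary. -/
theorem nbr_comm [Finite V] (hN : NCond k N) (h : Obj k N X G) {v : V} (hv : v ∈ tame X G)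
    {g u : Equiv.Perm V} (hg : g ∈ setStab G (comp X G v)) (hu : u ∈ setStab G (comp X G v))
    {x n : V} (hx : x ∈ comp X G v) (hn : X.Adj x n) : g (u n) = u (g n) := by
  have h1 := h.comp_comm hN hg hu hx
  have h2 : ((u * g)⁻¹ * (g * u)) x = x := by
    simp only [Equiv.Perm.mul_apply, h1]
    exact inv_app (u * g) x
  have h3 := (comp_tame hv hx).2 _ (G.mul_mem (G.inv_mem (G.mul_mem hu.1 hg.1))
    (G.mul_mem hg.1 hu.1)) h2 n hn
  have h4 := congrArg (u * g) h3
  rw [Equiv.Perm.mul_apply ((u * g)⁻¹), app_inv] at h4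
  exact h4

/-- The boundary of a component. -/
def bd (X : SimpleGraph V) (G : Subgroup (Equiv.Perm V)) (v : V) : Set V :=
  {n | n ∉ comp X G v ∧ ∃ x ∈ comp X G v, X.Adj x n}

/-- If all tame edges with equal stabilisers are inside orbits then components are inside
orbits. -/
theorem regular (hA : ∀ v w, X.Adj v w → (∀ g ∈ G, g v = v ↔ g w = w) → ∃ g ∈ G, g v = w)
    {v w : V} (hw : w ∈ comp X G v) : ∃ g ∈ G, g v = w := by
  have key : ∀ w, ReflTransGen (Step X (tame X G)) v w → ∃ g ∈ G, g v = w := by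
    intro w hw
    induction hw with
    | refl => exact ⟨1, G.one_mem, rfl⟩
    | tail _ h2 ih =>
      obtain ⟨g, hg, hgv⟩ := ih
      obtain ⟨u, hu, hu'⟩ := hA _ _ h2.2.2 fun g hg =>
        ⟨fun e => h2.1.2 g hg e _ h2.2.2, fun e => h2.2.1.2 g hg e _ h2.2.2.symm⟩
      exact ⟨u * g, G.mul_mem hu hg, by rw [Equiv.Perm.mul_apply, hgv, hu']⟩
  exact key w hw

theorem bd_smul (h : Obj k N X G) {v : V} {g : Equiv.Perm V}
    (hg : g ∈ setStab G (comp X G v)) {n : V} (hn : n ∈ bd X G v) : g n ∈ bd X G v := by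
  obtain ⟨h1, x, hx, hxn⟩ := hn
  exact ⟨fun e => h1 ((hg.2 n).1 e), g x, (hg.2 x).2 hx, h.adj g hg.1 _ _ hxn⟩

/-- The stabilisers of the boundary vertices form a chain. -/
theorem chain [Finite V] (hN : NCond k N) (h : Obj k N X G)
    (hA : ∀ v w, X.Adj v w → (∀ g ∈ G, g v = v ↔ g w = w) → ∃ g ∈ G, g v = w)
    {v : V} (hv : v ∈ tame X G) {y y' : V} (hy : y ∈ bd X G v) (hy' : y' ∈ bd X G v) :
    (∀ g ∈ setStab G (comp X G v), g y = y → g y' = y') ∨
      ∀ g ∈ setStab G (comp X G v), g y' = y' → g y = y := by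
  classical
  let K := comp X G v
  let H := setStab G K
  have hH : ∀ g ∈ H, g ∈ G := fun g hg => hg.1
  by_contra hcon
  rw [not_or] at hcon
  obtain ⟨hc1, hc2⟩ := hcon
  obtain ⟨hyK, x1, hx1, hxy1⟩ := hy
  obtain ⟨hyK', x2, hx2, hxy2⟩ := hy'
  -- the translation from `x1` to `x2`
  obtain ⟨u, hu, hu12⟩ : ∃ u ∈ H, u x1 = x2 := by
    obtain ⟨u, hu, hu'⟩ := regular hA (comp_trans (comp_symm hx1) hx2)
    refine ⟨u, h.setStab_of_mem hu hx1 ?_, hu'⟩
    rw [hu']
    exact hx2
  -- the orbits are big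
  have hbig : ∀ a, Big N (Nat.card (stab H a)) := fun a =>
    h.big.of_dvd (Subgroup.card_dvd_of_le fun g hg => hg.1.1)
  have ho1 : N ≤ (orb (stab H y) y').ncard := by
    rcases orb_card (hbig y) y' with h1 | h1
    · exact absurd (fun g hg hgy => h1 g ⟨hg, hgy⟩) hc1
    · exact h1
  have ho2 : N ≤ (orb (stab H y') y).ncard := by
    rcases orb_card (hbig y') y with h1 | h1
    · exact absurd (fun g hg hgy => h1 g ⟨hg, hgy⟩) hc2
    · exact h1
  -- `y'` is not in the orbit of `y`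
  have horb : y' ∉ orb H y := by
    rintro ⟨g, hg, hgy⟩
    apply hc1
    intro r hr hry
    rw [← hgy, h.nbr_comm hN hv hr hg hx1 hxy1, hry]
  let I := (orb H y) ⊕ (orb H y')
  let B : I → Set V := fun i => match i with
    | Sum.inl a => insert a.1 {x | ∃ g ∈ H, g y = a.1 ∧ g x1 = x}
    | Sum.inr b => {b.1}
  have hB1 : ∀ a : orb H y, B (Sum.inl a) = insert a.1 {x | ∃ g ∈ H, g y = a.1 ∧ g x1 = x} :=
    fun _ => rfl
  have hB2 : ∀ b : orb H y', B (Sum.inr b) = {b.1} := fun _ => rfl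
  have hleafK : ∀ g ∈ H, g x1 ∈ K := fun g hg => (hg.2 x1).2 hx1
  have hyo : ∀ a ∈ orb H y, a ∉ K := by
    rintro _ ⟨g, hg, rfl⟩ e
    exact hyK ((hg.2 y).1 e)
  have hyo' : ∀ a ∈ orb H y', a ∉ K := by
    rintro _ ⟨g, hg, rfl⟩ e
    exact hyK' ((hg.2 y').1 e)
  have hsep : ∀ a ∈ orb H y, ∀ b ∈ orb H y', a ≠ b := by
    rintro _ ⟨g, hg, rfl⟩ _ ⟨r, hr, rfl⟩ e
    apply horb
    refine ⟨r⁻¹ * g, H.mul_mem (H.inv_mem hr) hg, ?_⟩
    rw [Equiv.Perm.mul_apply, e, inv_app]
  have hconn : ∀ i, Conn X (B i) := by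
    rintro (a | b)
    · rw [hB1]
      refine conn_star ?_
      rintro x ⟨g, hg, hga, rfl⟩
      rw [← hga]
      exact (h.adj g hg.1 _ _ hxy1).symm
    · rw [hB2]
      exact conn_singleton _
  have hleaf : ∀ g ∈ H, ∀ r ∈ H, g x1 = r x1 → g y = r y := by
    intro g hg r hr e
    have e1 : (r⁻¹ * g) x1 = x1 := by rw [Equiv.Perm.mul_apply, e, inv_app]
    have e2 := (comp_tame hv hx1).2 _ (G.mul_mem (G.inv_mem hr.1) hg.1) e1 y hxy1
    rw [Equiv.Perm.mul_apply] at e2
    have e3 := congrArg r e2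
    rwa [app_inv] at e3
  have hdisj : ∀ i j, i ≠ j → Disjoint (B i) (B j) := by
    have key : ∀ (a : orb H y) (b : orb H y'), Disjoint (B (Sum.inl a)) (B (Sum.inr b)) := by
      intro a b
      rw [hB1, hB2, Set.disjoint_singleton_right]
      rintro (e | ⟨g, hg, -, e⟩)
      · exact hsep a a.2 b b.2 e.symm
      · exact hyo' b b.2 (e ▸ hleafK g hg)
    rintro (a | b) (a' | b') hne
    · rw [hB1, hB1, Set.disjoint_left]
      rintro x (rfl | ⟨g, hg, hga, rfl⟩) (e | ⟨r, hr, hra, e⟩)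
      · exact hne (by rw [Subtype.ext e])
      · exact hyo a a.2 (e ▸ hleafK r hr)
      · exact hyo a' a'.2 (e ▸ hleafK g hg)
      · exact hne (by rw [Subtype.ext (hga.symm.trans ((hleaf g hg r hr e.symm).trans hra))])
    · exact key a b'
    · exact (key a' b).symm
    · rw [hB2, hB2, Set.disjoint_singleton]
      exact fun e => hne (by rw [Subtype.ext e])
  have hne : Nonempty I := ⟨Sum.inl ⟨y, 1, H.one_mem, rfl⟩⟩
  apply h.nok
  refine hasK_of_family (I := I) hconn hdisj ?_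
  have hNk := hN.pow
  rintro (⟨a, g, hg, hga⟩ | ⟨b, g, hg, hgb⟩)
  · -- stars touch many translates of `y'`
    let f : orb (stab H y) y' → I := fun c => Sum.inr ⟨(g * u⁻¹) c.1, by
      obtain ⟨c, r, hr, rfl⟩ := c
      exact ⟨g * u⁻¹ * r, H.mul_mem (H.mul_mem hg (H.inv_mem hu)) hr.1, rfl⟩⟩
    have hf : Function.Injective f := by
      intro c d hcd
      have h1 := congrArg Subtype.val (Sum.inr.inj hcd)
      exact Subtype.ext ((g * u⁻¹).injective h1)
    have hsub : Set.range f ⊆ {j | (Sum.inl ⟨a, g, hg, hga⟩ : I) ≠ j ∧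
        Touch X (B (Sum.inl ⟨a, g, hg, hga⟩)) (B j)} := by
      rintro _ ⟨⟨c, r, hr, rfl⟩, rfl⟩
      refine ⟨by simp [f], ?_⟩
      refine ⟨(g * r) x1, ?_, (g * u⁻¹) (r y'), rfl, ?_⟩
      · rw [hB1]
        refine Or.inr ⟨g * r, H.mul_mem hg hr.1, ?_, rfl⟩
        have e3 : r y = y := hr.2
        change (g * r) y = a
        rw [Equiv.Perm.mul_apply, e3, hga]
      · have e1 : u⁻¹ (r y') = r (u⁻¹ y') :=
          h.nbr_comm hN hv (H.inv_mem hu) hr.1 hx2 hxy2
        rw [Equiv.Perm.mul_apply, Equiv.Perm.mul_apply, e1]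
        have e2 : X.Adj x1 (u⁻¹ y') := by
          have := h.adj u⁻¹ (G.inv_mem hu.1) _ _ hxy2
          rwa [← hu12, inv_app] at this
        exact h.adj _ hg.1 _ _ (h.adj _ hr.1.1 _ _ e2)
    have h1 := Set.ncard_le_ncard hsub (Set.toFinite _)
    have h2 : (Set.range f).ncard = (orb (stab H y) y').ncard := by
      rw [← Set.image_univ, Set.ncard_image_of_injective _ hf, Set.ncard_univ,
        Nat.card_coe_set_eq]
    omega
  · let f : orb (stab H y') y → I := fun c => Sum.inl ⟨(g * u) c.1, by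
      obtain ⟨c, r, hr, rfl⟩ := c
      exact ⟨g * u * r, H.mul_mem (H.mul_mem hg hu) hr.1, rfl⟩⟩
    have hf : Function.Injective f := by
      intro c d hcd
      have h1 := congrArg Subtype.val (Sum.inl.inj hcd)
      exact Subtype.ext ((g * u).injective h1)
    have hsub : Set.range f ⊆ {j | (Sum.inr ⟨b, g, hg, hgb⟩ : I) ≠ j ∧
        Touch X (B (Sum.inr ⟨b, g, hg, hgb⟩)) (B j)} := by
      rintro _ ⟨⟨c, r, hr, rfl⟩, rfl⟩
      refine ⟨by simp [f], ?_⟩
      refine Touch.symm ⟨(g * r * u) x1, ?_, b, rfl, ?_⟩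
      · rw [hB1]
        refine Or.inr ⟨g * r * u, H.mul_mem (H.mul_mem hg hr.1) hu, ?_, rfl⟩
        simp only [Equiv.Perm.mul_apply]
        have e1 : u (r y) = r (u y) := h.nbr_comm hN hv hu hr.1 hx1 hxy1
        rw [e1]
      · simp only [Equiv.Perm.mul_apply]
        rw [hu12, ← hgb]
        have e2 := h.adj _ hg.1 _ _ (h.adj _ hr.1.1 _ _ hxy2)
        have e3 : r y' = y' := hr.2
        rwa [e3] at e2
    have h1 := Set.ncard_le_ncard hsub (Set.toFinite _)
    have h2 : (Set.range f).ncard = (orb (stab H y') y).ncard := by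
      rw [← Set.image_univ, Set.ncard_image_of_injective _ hf, Set.ncard_univ,
        Nat.card_coe_set_eq]
    omega

end Obj

end Pool.Agent.Lib.MP_b06295_co
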