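import Mathlib

/-!
# Minors and the class of iterated products and wreath products of cyclic groups
-/

set_option autoImplicit false

namespace Pool.Agent.Lib.MP_b06295_co

/-- `IsMinor Y X`: the graph `Y` is a subcontraction (minor) of the graph `X`: there are pairwise
disjoint branch sets `B w` of vertices of `X`, one for each vertex `w` of `Y`, which induce
connected (in particular nonempty) subgraphs of `X`, such that for each edge of `Y` there is an
edge of `X` between the corresponding branch sets. -/
def IsMinor {W V : Type} (Y : SimpleGraph W) (X : SimpleGraph V) : Prop :=
  ∃ B : W → Set V, (∀ w, (X.induce (B w)).Connected) ∧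
    (∀ w w', w ≠ w' → Disjoint (B w) (B w')) ∧
    ∀ w w', Y.Adj w w' → ∃ x ∈ B w, ∃ y ∈ B w', X.Adj x y

/-- The smallest class of groups which contains all finite cyclic groups and is closed under
isomorphism, direct products of two groups, and permutational wreath products: for `A`, `B` in the
class and any action of `B` on a finite set `Ω`, the semidirect product of `Ω → A` and `B`, where
`B` permutes the coordinates, is in the class. -/
inductive InW : (G : Type) → [Group G] → Prop
  | cyclic (G : Type) [Group G] [Finite G] [IsCyclic G] : InW G
  | prod (A B : Type) [Group A] [Group B] : InW A → InW B → InW (A × B)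
  | wreath (A B Ω : Type) [Group A] [Group B] [Finite Ω] [MulAction B Ω] :
      InW A → InW B → InW ((Ω → A) ⋊[mulAutArrow] B)
  | iso (A B : Type) [Group A] [Group B] : (A ≃* B) → InW A → InW B

end Pool.Agent.Lib.MP_b06295_co
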