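import Pool.Agent.Lib.MP_b06295_co.Mader

/-!
# Free actions on connected graphs without a `K_k` minor

A finite group whose order has no small prime divisor and which acts semiregularly on a finite
connected graph without `K_k` minor is abelian.
-/

set_option autoImplicit false

namespace Pool.Agent.Lib.MP_b06295_co

open Relation

/-- `n` has no prime divisor below `N`. -/
def Big (N n : ℕ) : Prop := ∀ p : ℕ, p.Prime → p ∣ n → N ≤ p

theorem Big.one_or_le {N n m : ℕ} (h : Big N n) (hm : m ∣ n) (hm0 : m ≠ 0) : m = 1 ∨ N ≤ m := by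
  by_cases h1 : m = 1
  · exact Or.inl h1
  · exact Or.inr ((h m.minFac (Nat.minFac_prime h1) ((Nat.minFac_dvd m).trans hm)).trans
      (Nat.minFac_le (Nat.pos_of_ne_zero hm0)))

theorem Big.of_dvd {N n m : ℕ} (h : Big N n) (hm : m ∣ n) : Big N m :=
  fun p hp hpm => h p hp (hpm.trans hm)

/-- The numerical conditions on `N`. -/
structure NCond (k N : ℕ) : Prop where
  pow : 2 ^ k + 1 ≤ N
  lin : 2 * k ≤ N
  sq : k * k ≤ N
  three : 3 ≤ N

theorem orbit_card {H α : Type} [Group H] [Finite H] [MulAction H α] {N : ℕ}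
    (h : Big N (Nat.card H)) (a : α) :
    (∀ g : H, g • a = a) ∨ N ≤ (MulAction.orbit H a).ncard := by
  have h1 : (MulAction.orbit H a).ncard ∣ Nat.card H := by
    rw [← MulAction.index_stabilizer]
    exact Subgroup.index_dvd_card _
  have h0 : (MulAction.orbit H a).ncard ≠ 0 := fun e => by
    rw [e, zero_dvd_iff] at h1
    exact Nat.card_pos.ne' h1
  rcases h.one_or_le h1 h0 with h2 | h2
  · left
    intro g
    rw [Set.ncard_eq_one] at h2
    obtain ⟨b, hb⟩ := h2
    have e1 : a ∈ MulAction.orbit H a := MulAction.mem_orbit_self a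
    have e2 : g • a ∈ MulAction.orbit H a := MulAction.mem_orbit a g
    rw [hb, Set.mem_singleton_iff] at e1 e2
    rw [e2, e1]
  · exact Or.inr h2

section transversal

variable {V Q : Type} [Finite V] [Group Q] [MulAction Q V] {X : SimpleGraph V}

/-- A connected transversal of the orbits of a group acting on a connected set. -/
theorem exists_transversal (hX : ∀ (q : Q) (x y : V), X.Adj x y → X.Adj (q • x) (q • y))
    {K : Set V} (hK : Conn X K) (hinv : ∀ (q : Q), ∀ x ∈ K, q • x ∈ K) :
    ∃ T : Set V, T ⊆ K ∧ Conn X T ∧ (∀ x ∈ K, ∃ q : Q, ∃ t ∈ T, x = q • t) ∧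
      ∀ t ∈ T, ∀ t' ∈ T, ∀ q : Q, q • t = t' → t = t' := by
  classical
  let P : Set V → Prop := fun T => T ⊆ K ∧ Conn X T ∧
    ∀ t ∈ T, ∀ t' ∈ T, ∀ q : Q, q • t = t' → t = t'
  have hex : ∃ T, P T := by
    obtain ⟨a, ha⟩ := hK.1
    refine ⟨{a}, Set.singleton_subset_iff.2 ha, conn_singleton a, ?_⟩
    intro t ht t' ht' _ _
    rw [Set.mem_singleton_iff.1 ht, Set.mem_singleton_iff.1 ht']
  obtain ⟨T, hT, hmax⟩ : ∃ T, P T ∧ ∀ T', P T' → T'.ncard ≤ T.ncard := by
    obtain ⟨T0, hT0⟩ := hex
    have hfin : (Set.range fun T : {T : Set V // P T} => T.1.ncard).Finite := by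
      exact Set.finite_range _
    obtain ⟨m, ⟨T, rfl⟩, hm⟩ := hfin.exists_maximal ⟨_, ⟨⟨T0, hT0⟩, rfl⟩⟩
    refine ⟨T.1, T.2, fun T' hT' => ?_⟩
    by_contra hcon
    push Not at hcon
    have := hm ⟨⟨T', hT'⟩, rfl⟩ hcon.le
    simp only at this
    omega
  refine ⟨T, hT.1, hT.2.1, ?_, hT.2.2⟩
  by_contra hcon
  push Not at hcon
  obtain ⟨x, hxK, hx⟩ := hcon
  let s : Set V := {y | ∃ q : Q, ∃ t ∈ T, y = q • t}
  obtain ⟨a, ha⟩ := hT.2.1.1
  obtain ⟨y, hyK, ⟨q, t, ht, hy⟩, z, hzK, hz, hyz⟩ :=
    exists_exit hK (s := s) (hT.1 ha) ⟨1, a, ha, (one_smul Q a).symm⟩ hxK (by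
      rintro ⟨q, t, ht, e⟩
      exact hx q t ht e)
  have hadj : X.Adj t (q⁻¹ • z) := by
    have := hX q⁻¹ _ _ hyz
    rwa [hy, inv_smul_smul] at this
  have hnot : ∀ (r : Q), ∀ t' ∈ T, q⁻¹ • z ≠ r • t' := by
    intro r t' ht' e
    apply hz
    refine ⟨q * r, t', ht', ?_⟩
    rw [mul_smul, ← e, smul_inv_smul]
  have hP : P (insert (q⁻¹ • z) T) := by
    refine ⟨Set.insert_subset (hinv _ z hzK) hT.1, conn_insert hT.2.1 ht hadj, ?_⟩
    intro u hu u' hu' r hr
    rcases hu with rfl | hu <;> rcases hu' with rfl | hu'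
    · rfl
    · exact absurd (by rw [← hr, inv_smul_smul]) (hnot r⁻¹ u' hu')
    · exact absurd hr.symm (hnot r u hu)
    · exact hT.2.2 u hu u' hu' r hr
  have h1 := hmax _ hP
  have h2 : q⁻¹ • z ∉ T := fun h => hnot 1 _ h (one_smul Q _).symm
  rw [Set.ncard_insert_of_notMem h2 (Set.toFinite T)] at h1
  omega

omit [Finite V] in
/-- The translates of a connected transversal. -/
theorem translates (hX : ∀ (q : Q) (x y : V), X.Adj x y → X.Adj (q • x) (q • y))
    {K : Set V} (hfree : ∀ (q : Q), ∀ x ∈ K, q • x = x → q = 1) {T : Set V} (hTK : T ⊆ K)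
    (hT : Conn X T) (hT2 : ∀ t ∈ T, ∀ t' ∈ T, ∀ q : Q, q • t = t' → t = t') :
    (∀ q : Q, Conn X ((fun x => q • x) '' T)) ∧
      ∀ q r : Q, q ≠ r → Disjoint ((fun x => q • x) '' T) ((fun x => r • x) '' T) := by
  refine ⟨fun q => conn_image _ (hX q) hT, fun q r hqr => ?_⟩
  rw [Set.disjoint_left]
  rintro _ ⟨t, ht, rfl⟩ ⟨t', ht', e⟩
  simp only at e
  have e1 : (q⁻¹ * r) • t' = t := by rw [mul_smul, e, inv_smul_smul]
  have e2 := hT2 t' ht' t ht _ e1
  subst e2
  have e3 := hfree _ _ (hTK ht) e1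
  exact hqr (inv_mul_eq_one.1 e3)

end transversal

section heis

variable {Q : Type} [Group Q]

theorem heis_comm {a b z : Q} (hab : a * b = b * a * z) (hza : Commute z a) (i : ℕ) :
    a ^ i * b = b * a ^ i * z ^ i := by
  induction i with
  | zero => simp
  | succ i ih =>
    have h1 : z ^ i * a = a * z ^ i := (hza.pow_left i).eq
    calc a ^ (i + 1) * b = a * (a ^ i * b) := by rw [pow_succ']; group
      _ = a * b * (a ^ i * z ^ i) := by rw [ih]; group
      _ = b * a * (z * (a ^ i * z ^ i)) := by rw [hab]; group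
      _ = b * a * (a ^ i * (z * z ^ i)) := by
        have : z * a ^ i = a ^ i * z := (hza.pow_right i).eq
        rw [← mul_assoc z, this]
        group
      _ = b * a ^ (i + 1) * z ^ (i + 1) := by
        rw [pow_succ' a i, pow_succ' z i]
        group

theorem heis_comm' {a b z : Q} (hab : a * b = b * a * z) (hzb : Commute z b) (s : ℕ) :
    a * b ^ s = b ^ s * a * z ^ s := by
  induction s with
  | zero => simp
  | succ s ih =>
    calc a * b ^ (s + 1) = a * b ^ s * b := by rw [pow_succ]; group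
      _ = b ^ s * a * (z ^ s * b) := by rw [ih]; group
      _ = b ^ s * (a * b) * z ^ s := by rw [(hzb.pow_left s).eq]; group
      _ = b ^ s * b * a * (z * z ^ s) := by rw [hab]; group
      _ = b ^ (s + 1) * a * z ^ (s + 1) := by rw [← pow_succ' z s, ← pow_succ b s]

/-- The elements of the lattice. -/
def latt (a b z : Q) (i s l : ℕ) : Q := b ^ s * a ^ i * z ^ l

theorem latt_mul_a {a b z : Q} (hza : Commute z a) (i s l : ℕ) :
    latt a b z i s l * a = latt a b z (i + 1) s l := by
  unfold latt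
  rw [mul_assoc, (hza.pow_left l).eq, pow_succ a i]
  group

theorem latt_mul_b {a b z : Q} (hab : a * b = b * a * z) (hza : Commute z a) (hzb : Commute z b)
    (i s l : ℕ) : latt a b z i s l * b = latt a b z i (s + 1) (l + i) := by
  unfold latt
  calc b ^ s * a ^ i * z ^ l * b = b ^ s * (a ^ i * b) * z ^ l := by
        rw [mul_assoc _ (z ^ l), (hzb.pow_left l).eq]; group
    _ = b ^ s * b * a ^ i * (z ^ i * z ^ l) := by rw [heis_comm hab hza]; group
    _ = b ^ (s + 1) * a ^ i * z ^ (l + i) := by rw [← pow_add, ← pow_succ b s, add_comm i l]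

theorem latt_inj {a b z : Q} (hab : a * b = b * a * z) (hza : Commute z a) (hzb : Commute z b)
    {i s l i' s' l' : ℕ} (hi : i < orderOf z) (hi' : i' < orderOf z) (hs : s < orderOf z)
    (hs' : s' < orderOf z) (hl : l < orderOf z) (hl' : l' < orderOf z)
    (h : latt a b z i s l = latt a b z i' s' l') : i = i' ∧ s = s' ∧ l = l' := by
  have key1 : ∀ i s l, latt a b z i s l * b = b * latt a b z i s l * z ^ i := by
    intro i s l
    rw [latt_mul_b hab hza hzb]
    unfold latt
    rw [pow_add z l i, pow_succ' b s]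
    group
  have key2 : ∀ i s l, a * latt a b z i s l = latt a b z i s l * a * z ^ s := by
    intro i s l
    unfold latt
    calc a * (b ^ s * a ^ i * z ^ l) = (a * b ^ s) * a ^ i * z ^ l := by group
      _ = b ^ s * a * (z ^ s * a ^ i) * z ^ l := by rw [heis_comm' hab hzb]; group
      _ = b ^ s * (a * a ^ i) * (z ^ s * z ^ l) := by
        rw [((hza.pow_left s).pow_right i).eq]; group
      _ = b ^ s * (a ^ i * a) * (z ^ l * z ^ s) := by
        rw [← pow_succ', ← pow_succ, ← pow_add, ← pow_add, add_comm s l]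
      _ = b ^ s * a ^ i * (a * z ^ l) * z ^ s := by group
      _ = b ^ s * a ^ i * z ^ l * a * z ^ s := by rw [← (hza.pow_left l).eq]; group
  have e1 : z ^ i = z ^ i' := by
    have h1 := key1 i s l
    have h2 := key1 i' s' l'
    rw [h] at h1
    rw [h1] at h2
    exact mul_left_cancel h2
  have e2 : z ^ s = z ^ s' := by
    have h1 := key2 i s l
    have h2 := key2 i' s' l'
    rw [h] at h1
    rw [h1] at h2
    exact mul_left_cancel h2
  have f1 : i = i' := pow_injOn_Iio_orderOf hi hi' e1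
  have f2 : s = s' := pow_injOn_Iio_orderOf hs hs' e2
  subst f1 f2
  unfold latt at h
  exact ⟨rfl, rfl, pow_injOn_Iio_orderOf hl hl' (mul_left_cancel h)⟩

end heis

/-- Two numbers are determined by their sum and product. -/
theorem sum_prod {a b c d : ℕ} (h1 : a + b = c + d) (h2 : a * b = c * d) :
    (a = c ∧ b = d) ∨ (a = d ∧ b = c) := by
  have e : (a - c : ℤ) * (a - d) = 0 := by
    have h1' : (a + b : ℤ) = c + d := by exact_mod_cast h1
    have h2' : (a * b : ℤ) = c * d := by exact_mod_cast h2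
    linear_combination (a : ℤ) * h1' - h2'
  rcases mul_eq_zero.1 e with h | h
  · left
    omega
  · right
    omega

section main

variable {V Q : Type} [Finite V] [Group Q] [Finite Q] [MulAction Q V] {X : SimpleGraph V}

/-- The translates of a set. -/
def tr (T : Set V) (q : Q) : Set V := (fun x => q • x) '' T

omit [Finite V] [Finite Q] in
theorem touch_tr (hX : ∀ (q : Q) (x y : V), X.Adj x y → X.Adj (q • x) (q • y)) {T : Set V}
    {q r : Q} (h : Touch X (tr T q) (tr T r)) (u : Q) :
    Touch X (tr T (u * q)) (tr T (u * r)) := by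
  obtain ⟨_, ⟨x, hx, rfl⟩, _, ⟨y, hy, rfl⟩, hxy⟩ := h
  refine ⟨_, ⟨x, hx, rfl⟩, _, ⟨y, hy, rfl⟩, ?_⟩
  have := hX u _ _ hxy
  simp only [mul_smul]
  exact this

/-- Generators: the elements whose translate touches `T`. -/
def gens (X : SimpleGraph V) (T : Set V) (Q : Type) [Group Q] [MulAction Q V] : Set Q :=
  {c | Touch X (tr T (1 : Q)) (tr T c)}

omit [Finite V] [Finite Q] in
theorem gens_inv (hX : ∀ (q : Q) (x y : V), X.Adj x y → X.Adj (q • x) (q • y)) {T : Set V}
    {c : Q} (hc : c ∈ gens X T Q) : c⁻¹ ∈ gens X T Q := by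
  have := (touch_tr hX hc c⁻¹).symm
  rw [mul_one, inv_mul_cancel] at this
  exact this

omit [Finite V] [Finite Q] in
theorem touch_gens (hX : ∀ (q : Q) (x y : V), X.Adj x y → X.Adj (q • x) (q • y)) {T : Set V}
    {c : Q} (hc : c ∈ gens X T Q) (q : Q) : Touch X (tr T q) (tr T (q * c)) := by
  have := touch_tr hX hc q
  rwa [mul_one] at this

omit [Finite V] [Finite Q] in
theorem closure_gens (hX : ∀ (q : Q) (x y : V), X.Adj x y → X.Adj (q • x) (q • y)) {K : Set V}
    (hK : Conn X K) (hinv : ∀ (q : Q), ∀ x ∈ K, q • x ∈ K)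
    (hfree : ∀ (q : Q), ∀ x ∈ K, q • x = x → q = 1) {T : Set V} (hTK : T ⊆ K) (hT : T.Nonempty)
    (hT1 : ∀ x ∈ K, ∃ q : Q, ∃ t ∈ T, x = q • t)
    (hT2 : ∀ t ∈ T, ∀ t' ∈ T, ∀ q : Q, q • t = t' → t = t') :
    Subgroup.closure (gens X T Q) = ⊤ := by
  rw [eq_top_iff]
  intro q _
  obtain ⟨t, ht⟩ := hT
  by_contra hq
  obtain ⟨x, hx, ⟨r, hr, u, hu, rfl⟩, y, hy, hys, hxy⟩ :=
    exists_exit hK (s := {x | ∃ r ∈ Subgroup.closure (gens X T Q), ∃ u ∈ T, x = r • u})
      (hTK ht) ⟨1, Subgroup.one_mem _, t, ht, (one_smul Q t).symm⟩ (hinv q t (hTK ht)) (by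
        rintro ⟨r, hr, u, hu, e⟩
        have e1 : (r⁻¹ * q) • t = u := by rw [mul_smul, e, inv_smul_smul]
        have e2 := hT2 t ht u hu _ e1
        subst e2
        have e3 := hfree _ _ (hTK ht) e1
        rw [← inv_mul_eq_one.1 e3] at hq
        exact hq hr)
  obtain ⟨r', u', hu', rfl⟩ := hT1 y hy
  apply hys
  refine ⟨r', ?_, u', hu', rfl⟩
  have e1 : r⁻¹ * r' ∈ gens X T Q := by
    have h1 : Touch X (tr T r) (tr T r') := ⟨_, ⟨u, hu, rfl⟩, _, ⟨u', hu', rfl⟩, hxy⟩
    have h2 := touch_tr hX h1 r⁻¹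
    rwa [inv_mul_cancel] at h2
  have e2 : r' = r * (r⁻¹ * r') := by group
  rw [e2]
  exact Subgroup.mul_mem _ hr (Subgroup.subset_closure e1)

omit [Finite V] in
/-- The first use of Mader's theorem: generators normalise each other. -/
theorem gens_normalize {k N : ℕ} (hN : NCond k N) (hbig : Big N (Nat.card Q))
    (hX : ∀ (q : Q) (x y : V), X.Adj x y → X.Adj (q • x) (q • y)) {T : Set V}
    (hB : ∀ q : Q, Conn X (tr T q)) (hd : ∀ q r : Q, q ≠ r → Disjoint (tr T q) (tr T r))
    (hno : ¬ HasK X k) {a b : Q} (ha : a ∈ gens X T Q) (hb : b ∈ gens X T Q) :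
    a⁻¹ * b * a ∈ Subgroup.zpowers b := by
  classical
  -- the cosets
  let I := Q ⧸ Subgroup.zpowers b
  let D : I → Set Q := fun i => {q | (QuotientGroup.mk q : I) = i}
  let E : I → Set V := fun i => ⋃ q ∈ D i, tr T q
  have hstep : ∀ (i : I) (q : Q), q ∈ D i → ∀ n : ℕ,
      ReflTransGen (Step (quotGraph X (tr T : Q → Set V)) (D i)) q (q * b ^ n) := by
    intro i q hq n
    induction n with
    | zero => simpa using ReflTransGen.refl
    | succ n ih =>
      by_cases hb1 : b = 1
      · simpa [hb1] using ReflTransGen.refl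
      · refine ih.tail ⟨?_, ?_, ?_, ?_⟩
        · change (QuotientGroup.mk (q * b ^ n) : I) = i
          rw [← (show (QuotientGroup.mk q : I) = i from hq), eq_comm, QuotientGroup.eq]
          exact ⟨n, by simp⟩
        · change (QuotientGroup.mk (q * b ^ (n + 1)) : I) = i
          rw [← (show (QuotientGroup.mk q : I) = i from hq), eq_comm, QuotientGroup.eq]
          exact ⟨n + 1, by
            simp only [inv_mul_cancel_left]
            norm_cast⟩
        · rw [pow_succ, ← mul_assoc]
          intro e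
          exact hb1 (by simpa using e)
        · rw [pow_succ, ← mul_assoc]
          exact touch_gens hX hb _
  have hD : ∀ i, Conn (quotGraph X (tr T : Q → Set V)) (D i) := by
    intro i
    obtain ⟨q, rfl⟩ := QuotientGroup.mk_surjective i
    refine conn_of_base (a := q) rfl fun r hr => ?_
    have h1 : (QuotientGroup.mk r : I) = QuotientGroup.mk q := hr
    rw [eq_comm, QuotientGroup.eq] at h1
    obtain ⟨n, hn⟩ := mem_powers_iff_mem_zpowers.2 h1
    have : r = q * b ^ n := by
      simp only at hn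
      rw [hn]
      group
    rw [this]
    exact hstep _ q rfl n
  have hE : ∀ i, Conn X (E i) := fun i => conn_biUnion hB (hD i)
  have hEd : ∀ i j, i ≠ j → Disjoint (E i) (E j) := by
    intro i j hij
    rw [Set.disjoint_left]
    intro x hx hx'
    obtain ⟨q, hq, hxq⟩ := Set.mem_iUnion₂.1 hx
    obtain ⟨r, hr, hxr⟩ := Set.mem_iUnion₂.1 hx'
    have hqr : q ≠ r := by
      rintro rfl
      exact hij (by rw [← (show (QuotientGroup.mk q : I) = i from hq),
        ← (show (QuotientGroup.mk q : I) = j from hr)])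
    exact Set.disjoint_left.1 (hd q r hqr) hxq hxr
  -- the orbit
  have hbigz : Big N (Nat.card (Subgroup.zpowers b)) := hbig.of_dvd (Subgroup.card_subgroup_dvd_card _)
  rcases orbit_card hbigz (QuotientGroup.mk a : I) with h | h
  · have h1 := h ⟨b, Subgroup.mem_zpowers b⟩
    have h2 : (QuotientGroup.mk (b * a) : I) = QuotientGroup.mk a := h1
    rw [eq_comm, QuotientGroup.eq] at h2
    rwa [mul_assoc]
  · exfalso
    apply hno
    refine hasK_of_family (I := I) hE hEd fun i => ?_
    obtain ⟨q, rfl⟩ := QuotientGroup.mk_surjective i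
    have hsub : ((fun j : I => q • j) '' MulAction.orbit (Subgroup.zpowers b)
        (QuotientGroup.mk a : I)) \ {(QuotientGroup.mk q : I)} ⊆
        {j | (QuotientGroup.mk q : I) ≠ j ∧ Touch X (E (QuotientGroup.mk q)) (E j)} := by
      rintro _ ⟨⟨_, ⟨⟨r, hr⟩, rfl⟩, rfl⟩, hne⟩
      refine ⟨fun e => hne e.symm, ?_⟩
      have h1 : Touch X (tr T (q * r)) (tr T (q * r * a)) := touch_gens hX ha _
      refine h1.mono ?_ ?_
      · refine Set.subset_biUnion_of_mem (u := tr T) ?_
        change (QuotientGroup.mk (q * r) : I) = QuotientGroup.mk q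
        rw [eq_comm, QuotientGroup.eq]
        simpa using hr
      · refine Set.subset_biUnion_of_mem (u := tr T) ?_
        change (QuotientGroup.mk (q * r * a) : I) = QuotientGroup.mk (q * (r * a))
        rw [mul_assoc]
    have h1 := Set.ncard_le_ncard hsub (Set.toFinite _)
    have h2 : ((fun j : I => q • j) '' MulAction.orbit (Subgroup.zpowers b)
        (QuotientGroup.mk a : I)).ncard = (MulAction.orbit (Subgroup.zpowers b)
        (QuotientGroup.mk a : I)).ncard :=
      Set.ncard_image_of_injective _ (MulAction.injective q)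
    have h3 := Set.le_ncard_sdiff {(QuotientGroup.mk q : I)} ((fun j : I => q • j) ''
      MulAction.orbit (Subgroup.zpowers b) (QuotientGroup.mk a : I))
    rw [Set.ncard_singleton, h2] at h3
    have h4 := hN.pow
    omega

/-- The branch sets of the clique minor in the Heisenberg situation. -/
def hset (k : ℕ) (a b z : Q) (j : ℕ) : Set Q :=
  {g | ∃ m, m < k ∧ g = latt a b z j (j + m) (j * m)} ∪
    {g | ∃ j', j < j' ∧ j' < k ∧ ∃ i, j ≤ i ∧ i < j' ∧ g = latt a b z i (j + j') (j * j')}

omit [Finite V] in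
/-- The second clique minor: noncommuting generators. -/
theorem gens_comm {k N : ℕ} (hN : NCond k N) (hbig : Big N (Nat.card Q))
    (hX : ∀ (q : Q) (x y : V), X.Adj x y → X.Adj (q • x) (q • y)) {T : Set V}
    (hB : ∀ q : Q, Conn X (tr T q)) (hd : ∀ q r : Q, q ≠ r → Disjoint (tr T q) (tr T r))
    (hno : ¬ HasK X k) {a b : Q} (ha : a ∈ gens X T Q) (hb : b ∈ gens X T Q) :
    a * b = b * a := by
  by_contra hne
  obtain ⟨z, hz⟩ : ∃ z : Q, z = a⁻¹ * b⁻¹ * a * b := ⟨_, rfl⟩
  have hab : a * b = b * a * z := by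
    rw [hz]
    group
  have hz1 : z ≠ 1 := by
    intro h
    rw [h, mul_one] at hab
    exact hne hab
  have hzb : Commute z b := by
    have h1 := gens_normalize hN hbig hX hB hd hno ha hb
    have h2 : z ∈ Subgroup.zpowers b := by
      have : z = (a⁻¹ * b * a)⁻¹ * b := by
        rw [hz]
        group
      rw [this]
      exact Subgroup.mul_mem _ (Subgroup.inv_mem _ h1) (Subgroup.mem_zpowers b)
    obtain ⟨n, hn⟩ := h2
    rw [← hn]
    exact (Commute.refl b).zpow_left n
  have hza : Commute z a := by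
    have h1 := gens_normalize hN hbig hX hB hd hno hb ha
    have h2 : z ∈ Subgroup.zpowers a := by
      have : z = a⁻¹ * (b⁻¹ * a * b) := by
        rw [hz]
        group
      rw [this]
      exact Subgroup.mul_mem _ (Subgroup.inv_mem _ (Subgroup.mem_zpowers a)) h1
    obtain ⟨n, hn⟩ := h2
    rw [← hn]
    exact (Commute.refl a).zpow_left n
  have hord : N ≤ orderOf z := by
    rcases hbig.one_or_le (orderOf_dvd_natCard z) (orderOf_pos z).ne' with h | h
    · exact absurd (orderOf_eq_one_iff.1 h) hz1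
    · exact h
  have ha1 : a ≠ 1 := by
    rintro rfl
    exact hne (by simp)
  have hb1 : b ≠ 1 := by
    rintro rfl
    exact hne (by simp)
  have hN2 := hN.lin
  have hN3 := hN.sq
  -- the order of the parameters
  have hinj : ∀ {i s l i' s' l' : ℕ}, i < k → i' < k → s < 2 * k → s' < 2 * k → l < k * k →
      l' < k * k → latt a b z i s l = latt a b z i' s' l' → i = i' ∧ s = s' ∧ l = l' := by
    intro i s l i' s' l' h1 h2 h3 h4 h5 h6 h
    exact latt_inj hab hza hzb (by omega) (by omega) (by omega) (by omega) (by omega) (by omega) h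
  let Γ := quotGraph X (tr T : Q → Set V)
  have adj_a : ∀ g : Q, Γ.Adj g (g * a) := fun g =>
    ⟨fun e => ha1 (by simpa using e), touch_gens hX ha g⟩
  have adj_b : ∀ g : Q, Γ.Adj g (g * b) := fun g =>
    ⟨fun e => hb1 (by simpa using e), touch_gens hX hb g⟩
  apply hno
  refine hasK_of_quot (B := (tr T : Q → Set V)) hB hd ?_
  have hprod : ∀ {x y : ℕ}, x < k → y < k → x * y < k * k := fun {x y} hx hy =>
    Nat.mul_lt_mul'' hx hy
  refine ⟨fun j => hset k a b z j, ?_, ?_, ?_⟩
  · rintro ⟨j, hj⟩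
    have hbase : latt a b z j (j + 0) (j * 0) ∈ hset k a b z j :=
      Or.inl ⟨0, by omega, rfl⟩
    have hline : ∀ m, m < k → ReflTransGen (Step Γ (hset k a b z j))
        (latt a b z j (j + 0) (j * 0)) (latt a b z j (j + m) (j * m)) := by
      intro m
      induction m with
      | zero => exact fun _ => ReflTransGen.refl
      | succ m ih =>
        intro hm
        refine (ih (by omega)).tail ⟨Or.inl ⟨m, by omega, rfl⟩, Or.inl ⟨m + 1, hm, rfl⟩, ?_⟩
        have := adj_b (latt a b z j (j + m) (j * m))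
        rw [latt_mul_b hab hza hzb] at this
        exact this
    have hpath : ∀ j', j < j' → j' < k → ∀ i, j ≤ i → i < j' →
        ReflTransGen (Step Γ (hset k a b z j))
        (latt a b z j (j + 0) (j * 0)) (latt a b z i (j + j') (j * j')) := by
      intro j' h1 h2 i hi
      induction i, hi using Nat.le_induction with
      | base => exact fun _ => hline j' h2
      | succ i hi ih =>
        intro hlt
        refine (ih (by omega)).tail ⟨Or.inr ⟨j', h1, h2, i, hi, by omega, rfl⟩,
          Or.inr ⟨j', h1, h2, i + 1, by omega, hlt, rfl⟩, ?_⟩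
        have := adj_a (latt a b z i (j + j') (j * j'))
        rw [latt_mul_a hza] at this
        exact this
    refine conn_of_base hbase fun g hg => ?_
    rcases hg with ⟨m, hm, rfl⟩ | ⟨j', h1, h2, i, h3, h4, rfl⟩
    · exact hline m hm
    · exact hpath j' h1 h2 i h3 h4
  · rintro ⟨j1, hj1⟩ ⟨j2, hj2⟩ hne12
    have hj12 : j1 ≠ j2 := fun e => hne12 (by simp [e])
    rw [Set.disjoint_left]
    simp only
    rintro g (⟨m, hm, rfl⟩ | ⟨j', h1, h2, i, h3, h4, rfl⟩) (⟨m', hm', e⟩ | ⟨j'', h1', h2', i', h3', h4', e⟩)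
    · have := hinj hj1 hj2 (by omega) (by omega) (hprod hj1 hm) (hprod hj2 hm') e
      exact hj12 this.1
    · obtain ⟨e1, e2, e3⟩ := hinj hj1 (by omega) (by omega) (by omega) (hprod hj1 hm)
        (hprod hj2 h2') e
      rcases sum_prod e2 e3 with h | h
      · exact hj12 h.1
      · omega
    · obtain ⟨e1, e2, e3⟩ := hinj (by omega) hj2 (by omega) (by omega) (hprod hj1 h2)
        (hprod hj2 hm') e
      rcases sum_prod e2 e3 with h | h
      · exact hj12 h.1
      · omega
    · obtain ⟨e1, e2, e3⟩ := hinj (by omega) (by omega) (by omega) (by omega) (hprod hj1 h2)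
        (hprod hj2 h2') e
      rcases sum_prod e2 e3 with h | h
      · exact hj12 h.1
      · omega
  · have key : ∀ j1 j2 : ℕ, j1 < j2 → j2 < k → Touch Γ (hset k a b z j1) (hset k a b z j2) := by
      intro j1 j2 h12 h2
      obtain ⟨i, rfl⟩ : ∃ i, j2 = i + 1 := ⟨j2 - 1, by omega⟩
      refine ⟨latt a b z i (j1 + (i + 1)) (j1 * (i + 1)), Or.inr ⟨i + 1, h12, h2, i, by omega,
        by omega, rfl⟩, latt a b z (i + 1) (j1 + (i + 1)) (j1 * (i + 1)),
        Or.inl ⟨j1, by omega, ?_⟩, ?_⟩
      · rw [add_comm j1 (i + 1), mul_comm j1 (i + 1)]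
      · have := adj_a (latt a b z i (j1 + (i + 1)) (j1 * (i + 1)))
        rw [latt_mul_a hza] at this
        exact this
    rintro ⟨j1, hj1⟩ ⟨j2, hj2⟩ hne12
    have hj12 : j1 ≠ j2 := fun e => hne12 (by simp [e])
    rcases Nat.lt_or_gt_of_ne hj12 with h | h
    · exact key j1 j2 h hj2
    · exact (key j2 j1 h hj1).symm

/-- A finite group without small prime divisors which acts semiregularly on a connected set of a
graph without `K_k` minor is abelian. -/
theorem free_comm {k N : ℕ} (hN : NCond k N) (hbig : Big N (Nat.card Q))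
    (hX : ∀ (q : Q) (x y : V), X.Adj x y → X.Adj (q • x) (q • y)) {K : Set V} (hK : Conn X K)
    (hinv : ∀ (q : Q), ∀ x ∈ K, q • x ∈ K) (hfree : ∀ (q : Q), ∀ x ∈ K, q • x = x → q = 1)
    (hno : ¬ HasK X k) : ∀ a b : Q, a * b = b * a := by
  obtain ⟨T, hTK, hT, hT1, hT2⟩ := exists_transversal hX hK hinv
  obtain ⟨hB, hd⟩ := translates hX hfree hTK hT hT2
  have hcl := closure_gens hX hK hinv hfree hTK hT.1 hT1 hT2
  have hg : ∀ a ∈ gens X T Q, ∀ b ∈ gens X T Q, a * b = b * a := fun a ha b hb =>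
    gens_comm hN hbig hX hB hd hno ha hb
  have h1 : ∀ a ∈ gens X T Q, ∀ b : Q, a * b = b * a := by
    intro a ha b
    have hb : b ∈ Subgroup.closure (gens X T Q) := by rw [hcl]; trivial
    induction hb using Subgroup.closure_induction with
    | mem x hx => exact hg a ha x hx
    | one => simp
    | mul x y _ _ hx hy => rw [← mul_assoc, hx, mul_assoc, hy, mul_assoc]
    | inv x _ hx =>
      have := congrArg (fun t => x⁻¹ * t * x⁻¹) hx
      simp only [mul_assoc, mul_inv_cancel, mul_one, inv_mul_cancel_left] at this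
      exact this.symm
  intro a b
  have ha : a ∈ Subgroup.closure (gens X T Q) := by rw [hcl]; trivial
  induction ha using Subgroup.closure_induction with
  | mem x hx => exact h1 x hx b
  | one => simp
  | mul x y _ _ hx hy => rw [mul_assoc, hy, ← mul_assoc, hx, mul_assoc]
  | inv x _ hx =>
    have := congrArg (fun t => x⁻¹ * t * x⁻¹) hx
    simp only [mul_assoc, mul_inv_cancel, mul_one, inv_mul_cancel_left] at this
    exact this.symm

end main

end Pool.Agent.Lib.MP_b06295_co
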