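import Pool.Agent.Lib.MP_b06295_co.Basic

/-!
# Mader's theorem (simple form)

A nonempty finite graph of minimum degree at least `2 ^ k` has a `K_k` minor.
-/

set_option autoImplicit false

namespace Pool.Agent.Lib.MP_b06295_co

open Relation Finset

open scoped Classical in
section

variable {V : Type} {X : SimpleGraph V}

/-- `K_k` minor with branch sets inside `S`. -/
def HasKin (X : SimpleGraph V) (S : Finset V) (k : ℕ) : Prop :=
  ∃ B : Fin k → Set V, (∀ i, Conn X (B i)) ∧ (∀ i j, i ≠ j → Disjoint (B i) (B j)) ∧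
    (∀ i j, i ≠ j → Touch X (B i) (B j)) ∧ ∀ i, B i ⊆ (S : Set V)

theorem HasKin.hasK {S : Finset V} {k : ℕ} (h : HasKin X S k) : HasK X k := by
  obtain ⟨B, h1, h2, h3, -⟩ := h
  exact ⟨B, h1, h2, h3⟩

theorem HasKin.mono {S T : Finset V} {k : ℕ} (h : HasKin X S k) (hST : S ⊆ T) :
    HasKin X T k := by
  obtain ⟨B, h1, h2, h3, h4⟩ := h
  exact ⟨B, h1, h2, h3, fun i => (h4 i).trans (Finset.coe_subset.2 hST)⟩

theorem HasKin.succ {S U N : Finset V} {k : ℕ} (hU : Conn X (U : Set V)) (hUS : U ⊆ S)
    (hNS : N ⊆ S) (hUN : Disjoint U N) (hadj : ∀ x ∈ N, ∃ u ∈ U, X.Adj u x)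
    (h : HasKin X N k) : HasKin X S (k + 1) := by
  obtain ⟨B, h1, h2, h3, h4⟩ := h
  have hd : ∀ i, Disjoint (U : Set V) (B i) := fun i =>
    (Finset.disjoint_coe.2 hUN).mono_right (h4 i)
  have key : ∀ i, Touch X (U : Set V) (B i) := by
    intro i
    obtain ⟨x, hx⟩ := (h1 i).1
    obtain ⟨u, hu, hux⟩ := hadj x (h4 i hx)
    exact ⟨u, hu, x, hx, hux⟩
  refine ⟨Fin.cons (U : Set V) B, ?_, ?_, ?_, ?_⟩
  · intro i
    refine Fin.cases ?_ (fun i => ?_) i
    · simpa using hU
    · simpa using h1 i
  · intro i j
    refine Fin.cases ?_ (fun i => ?_) i <;> refine Fin.cases ?_ (fun j => ?_) j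
    · intro h
      exact absurd rfl h
    · intro _
      simpa using hd j
    · intro _
      simpa using (hd i).symm
    · intro hij
      simpa using h2 i j fun e => hij (by rw [e])
  · intro i j
    refine Fin.cases ?_ (fun i => ?_) i <;> refine Fin.cases ?_ (fun j => ?_) j
    · intro h
      exact absurd rfl h
    · intro _
      simpa using key j
    · intro _
      simpa using (key i).symm
    · intro hij
      simpa using h3 i j fun e => hij (by rw [e])
  · intro i
    refine Fin.cases ?_ (fun i => ?_) i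
    · simpa using hUS
    · simpa using (h4 i).trans (Finset.coe_subset.2 hNS)

/-- Number of ordered adjacent pairs in `S`. -/
noncomputable def Es (X : SimpleGraph V) (S : Finset V) : ℕ :=
  ∑ x ∈ S, (S.filter fun y => X.Adj x y).card

/-- The neighbours of `U` in `S ∖ U`. -/
noncomputable def Nb (X : SimpleGraph V) (S U : Finset V) : Finset V :=
  (S \ U).filter fun x => ∃ u ∈ U, X.Adj u x

theorem Es_erase {W : Finset V} {u : V} (hu : u ∈ W) :
    Es X W = Es X (W.erase u) + 2 * (W.filter fun y => X.Adj u y).card := by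
  unfold Es
  rw [← Finset.add_sum_erase W _ hu]
  have h1 : ∀ x ∈ W.erase u, (W.filter fun y => X.Adj x y).card =
      ((W.erase u).filter fun y => X.Adj x y).card + if X.Adj x u then 1 else 0 := by
    intro x hx
    have h2 : W = insert u (W.erase u) := (Finset.insert_erase hu).symm
    conv_lhs => rw [h2, Finset.filter_insert]
    split_ifs with h
    · rw [Finset.card_insert_of_notMem]
      simp
    · simp
  rw [Finset.sum_congr rfl h1, Finset.sum_add_distrib]
  have h3 : (∑ x ∈ W.erase u, if X.Adj x u then 1 else 0) =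
      (W.filter fun y => X.Adj u y).card := by
    rw [← Finset.card_filter]
    congr 1
    ext y
    simp only [Finset.mem_filter, Finset.mem_erase]
    constructor
    · rintro ⟨⟨-, h⟩, h'⟩
      exact ⟨h, h'.symm⟩
    · rintro ⟨h, h'⟩
      exact ⟨⟨fun e => X.loopless.irrefl u (by rw [e] at h'; exact h'), h⟩, h'.symm⟩
  rw [h3]
  ring

theorem Nb_insert {S U : Finset V} {u : V} (hu : u ∈ Nb X S U) :
    (Nb X S (insert u U)).card + 1 + (((Nb X S U)).filter fun y => X.Adj u y).card =
      (Nb X S U).card + ((S \ U).filter fun y => X.Adj u y).card := by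
  have hmem := hu
  unfold Nb at hmem
  rw [Finset.mem_filter, Finset.mem_sdiff] at hmem
  obtain ⟨⟨huS, huU⟩, -⟩ := hmem
  have h1 : Nb X S (insert u U) = (Nb X S U).erase u ∪
      (((S \ U).filter fun y => X.Adj u y) \ Nb X S U) := by
    ext y
    simp only [Nb, Finset.mem_filter, Finset.mem_sdiff, Finset.mem_insert, Finset.mem_union,
      Finset.mem_erase]
    constructor
    · rintro ⟨⟨hyS, hy⟩, w, hw, hwy⟩
      push Not at hy
      rcases hw with rfl | hw
      · by_cases hN : ∃ u ∈ U, X.Adj u y
        · exact Or.inl ⟨hy.1, ⟨hyS, hy.2⟩, hN⟩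
        · exact Or.inr ⟨⟨⟨hyS, hy.2⟩, hwy⟩, fun h => hN h.2⟩
      · exact Or.inl ⟨hy.1, ⟨hyS, hy.2⟩, w, hw, hwy⟩
    · rintro (⟨hy, ⟨hyS, hyU⟩, w, hw, hwy⟩ | ⟨⟨⟨hyS, hyU⟩, hadj⟩, -⟩)
      · exact ⟨⟨hyS, by push Not; exact ⟨hy, hyU⟩⟩, w, Or.inr hw, hwy⟩
      · refine ⟨⟨hyS, ?_⟩, u, Or.inl rfl, hadj⟩
        push Not
        exact ⟨fun e => X.loopless.irrefl u (by rw [e] at hadj; exact hadj), hyU⟩
  have h2 : Disjoint ((Nb X S U).erase u) (((S \ U).filter fun y => X.Adj u y) \ Nb X S U) := by
    rw [Finset.disjoint_left]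
    intro y hy hy'
    exact (Finset.mem_sdiff.1 hy').2 (Finset.mem_of_mem_erase hy)
  have h3 : ((Nb X S U).erase u).card + 1 = (Nb X S U).card := Finset.card_erase_add_one hu
  have h4 : (Nb X S U).filter (fun y => X.Adj u y) =
      ((S \ U).filter fun y => X.Adj u y) ∩ Nb X S U := by
    ext y
    simp only [Nb, Finset.mem_filter, Finset.mem_inter]
    tauto
  have h5 := Finset.card_sdiff_add_card_inter ((S \ U).filter fun y => X.Adj u y) (Nb X S U)
  rw [h1, Finset.card_union_of_disjoint h2, h4]
  omega

theorem mader_aux (k : ℕ) : ∀ (n : ℕ) (S : Finset V), S.card = n → S.Nonempty →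
    2 ^ k * S.card ≤ Es X S → HasKin X S k := by
  induction k with
  | zero =>
    intro n S _ _ _
    exact ⟨fun i => i.elim0, fun i => i.elim0, fun i => i.elim0, fun i => i.elim0,
      fun i => i.elim0⟩
  | succ k ihk =>
    intro n
    induction n using Nat.strong_induction_on with
    | _ n ihn =>
    intro S hSn hS hE
    -- good sets
    let P : Finset V → Prop := fun U => U ⊆ S ∧ Conn X (U : Set V) ∧
      2 ^ (k + 1) * ((S \ U).card + 1) ≤ Es X (S \ U) + 2 * (Nb X S U).card
    have hex : ∃ U, P U := by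
      obtain ⟨v, hv⟩ := hS
      refine ⟨{v}, Finset.singleton_subset_iff.2 hv, ?_, ?_⟩
      · rw [Finset.coe_singleton]
        exact conn_singleton v
      · have e1 : S \ {v} = S.erase v := Finset.sdiff_singleton_eq_erase v S
        have e2 : Nb X S {v} = S.filter fun y => X.Adj v y := by
          ext y
          simp only [Nb, Finset.mem_filter, Finset.mem_sdiff, Finset.mem_singleton,
            exists_eq_left]
          constructor
          · rintro ⟨⟨h, -⟩, h'⟩
            exact ⟨h, h'⟩
          · rintro ⟨h, h'⟩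
            exact ⟨⟨h, fun e => X.loopless.irrefl v (by rw [e] at h'; exact h')⟩, h'⟩
        have e3 := Finset.card_erase_add_one hv
        rw [e2, e1, ← Es_erase hv, e3]
        exact hE
    obtain ⟨U, hU, hmax⟩ : ∃ U, P U ∧ ∀ U', P U' → U'.card ≤ U.card := by
      have hne : (S.powerset.filter P).Nonempty := by
        obtain ⟨U, hU⟩ := hex
        exact ⟨U, Finset.mem_filter.2 ⟨Finset.mem_powerset.2 hU.1, hU⟩⟩
      obtain ⟨U, hU1, hU2⟩ := Finset.exists_max_image _ Finset.card hne
      exact ⟨U, (Finset.mem_filter.1 hU1).2, fun U' hU' => hU2 U'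
        (Finset.mem_filter.2 ⟨Finset.mem_powerset.2 hU'.1, hU'⟩)⟩
    obtain ⟨hUS, hUc, hUE⟩ := hU
    by_cases hN : (Nb X S U).Nonempty
    · -- minimum degree in the neighbourhood
      have hNS : Nb X S U ⊆ S := (Finset.filter_subset _ _).trans Finset.sdiff_subset
      have hdeg : ∀ u ∈ Nb X S U, 2 ^ k ≤ ((Nb X S U).filter fun y => X.Adj u y).card := by
        intro u hu
        have hmem := hu
        unfold Nb at hmem
        rw [Finset.mem_filter, Finset.mem_sdiff] at hmem
        obtain ⟨⟨huS, huU⟩, w, hw, hwu⟩ := hmem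
        have hnP : ¬ P (insert u U) := by
          intro hP
          have := hmax _ hP
          rw [Finset.card_insert_of_notMem huU] at this
          omega
        have hc : Conn X ((insert u U : Finset V) : Set V) := by
          rw [Finset.coe_insert]
          exact conn_insert hUc (Finset.mem_coe.2 hw) hwu
        have hlt : Es X (S \ insert u U) + 2 * (Nb X S (insert u U)).card <
            2 ^ (k + 1) * ((S \ insert u U).card + 1) := by
          by_contra hcon
          push Not at hcon
          exact hnP ⟨Finset.insert_subset huS hUS, hc, hcon⟩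
        have e1 : S \ insert u U = (S \ U).erase u := by
          ext y
          simp only [Finset.mem_sdiff, Finset.mem_insert, Finset.mem_erase]
          tauto
        have huW : u ∈ S \ U := Finset.mem_sdiff.2 ⟨huS, huU⟩
        have e2 := Es_erase (X := X) huW
        have e3 := Finset.card_erase_add_one huW
        have e4 := Nb_insert hu
        rw [e1, e3] at hlt
        have e5 : 2 ^ (k + 1) * ((S \ U).card + 1) = 2 ^ (k + 1) * (S \ U).card + 2 * 2 ^ k := by
          ring
        rw [e5] at hUE
        omega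
      have hEN : 2 ^ k * (Nb X S U).card ≤ Es X (Nb X S U) := by
        unfold Es
        rw [mul_comm, ← smul_eq_mul]
        exact Finset.card_nsmul_le_sum _ _ _ hdeg
      have h := ihk _ (Nb X S U) rfl hN hEN
      refine HasKin.succ hUc hUS hNS ?_ ?_ h
      · rw [Finset.disjoint_left]
        intro x hx hx'
        unfold Nb at hx'
        rw [Finset.mem_filter, Finset.mem_sdiff] at hx'
        exact hx'.1.2 hx
      · intro x hx
        unfold Nb at hx
        exact (Finset.mem_filter.1 hx).2
    · rw [Finset.not_nonempty_iff_eq_empty] at hN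
      rw [hN, Finset.card_empty, mul_zero, add_zero] at hUE
      have hne : (S \ U).Nonempty := by
        by_contra hcon
        rw [Finset.not_nonempty_iff_eq_empty] at hcon
        rw [hcon] at hUE
        simp [Es] at hUE
      have hUne : U.Nonempty := by
        obtain ⟨a, ha⟩ := hUc.1
        exact ⟨a, ha⟩
      have hlt : (S \ U).card < n := by
        rw [← hSn]
        refine Finset.card_lt_card ?_
        refine Finset.ssubset_iff_subset_ne.2 ⟨Finset.sdiff_subset, fun e => ?_⟩
        obtain ⟨a, ha⟩ := hUne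
        have : a ∈ S \ U := by
          rw [e]
          exact hUS ha
        exact (Finset.mem_sdiff.1 this).2 ha
      have h := ihn _ hlt (S \ U) rfl hne (le_trans (Nat.mul_le_mul_left _ (Nat.le_succ _)) hUE)
      exact h.mono Finset.sdiff_subset

/-- A nonempty finite graph of minimum degree at least `2 ^ k` has a `K_k` minor. -/
theorem mader [Finite V] [Nonempty V] (k : ℕ) (h : ∀ v : V, 2 ^ k ≤ {w | X.Adj v w}.ncard) :
    HasK X k := by
  have := Fintype.ofFinite V
  refine (mader_aux k _ (Finset.univ : Finset V) rfl Finset.univ_nonempty ?_).hasK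
  unfold Es
  rw [mul_comm, ← smul_eq_mul]
  refine Finset.card_nsmul_le_sum _ _ _ fun v _ => ?_
  have h1 := h v
  have h2 : {w | X.Adj v w}.ncard = (Finset.univ.filter fun y => X.Adj v y).card := by
    rw [← Set.ncard_coe_finset]
    congr 1
    ext y
    simp
  rw [h2] at h1
  exact h1

/-- The form used everywhere: a finite nonempty family of disjoint connected sets, each touching
at least `2 ^ k` others. -/
theorem hasK_of_family {k : ℕ} {I : Type} [Finite I] [Nonempty I] {B : I → Set V}
    (hB : ∀ i, Conn X (B i)) (hd : ∀ i j, i ≠ j → Disjoint (B i) (B j))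
    (h : ∀ i, 2 ^ k ≤ {j | i ≠ j ∧ Touch X (B i) (B j)}.ncard) : HasK X k :=
  hasK_of_quot hB hd (mader k h)

end

end Pool.Agent.Lib.MP_b06295_co
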