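import Pool.Agent.Lib.MP_b06295_co.Wr

/-!
# The isomorphism with a wreath product
-/

set_option autoImplicit false

namespace Pool.Agent.Lib.MP_b06295_co

open Relation Obj

variable {V : Type} {k N : ℕ} {X : SimpleGraph V} {G : Subgroup (Equiv.Perm V)} {v : V}

/-- The quotient group. -/
abbrev qgrp (h : Obj k N X G) (D : Wr X G v) : Subgroup (Equiv.Perm (Quotient (wrS D))) :=
  (rho (wrS D) (wrS_inv h D)).range

/-- The set of translates of the component. -/
abbrev Om (h : Obj k N X G) (D : Wr X G v) : Set (Quotient (wrS D)) :=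
  MulAction.orbit (qgrp h D) (Quotient.mk (wrS D) v)

theorem mem_Om (h : Obj k N X G) (D : Wr X G v) {x : V} :
    Quotient.mk (wrS D) x ∈ Om h D ↔ x ∈ orb G v := by
  constructor
  · rintro ⟨⟨_, ⟨g, rfl⟩⟩, e⟩
    exact orb_of_mk D (show Quotient.mk (wrS D) (g.1 v) = Quotient.mk (wrS D) x from e)
      ⟨g.1, g.2, rfl⟩
  · rintro ⟨g, hg, rfl⟩
    exact ⟨⟨rho (wrS D) (wrS_inv h D) ⟨g, hg⟩, ⟨⟨g, hg⟩, rfl⟩⟩, rfl⟩

theorem Om_smul (h : Obj k N X G) (D : Wr X G v) (σ : qgrp h D) {q : Quotient (wrS D)}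
    (hq : q ∈ Om h D) : σ.1 q ∈ Om h D := by
  obtain ⟨g, rfl⟩ := hq
  exact ⟨σ * g, mul_smul σ g _⟩

theorem Om_smul_iff (h : Obj k N X G) (D : Wr X G v) (σ : qgrp h D) {q : Quotient (wrS D)} :
    σ.1 q ∈ Om h D ↔ q ∈ Om h D := by
  refine ⟨fun hq => ?_, Om_smul h D σ⟩
  have := Om_smul h D σ⁻¹ hq
  have e : (σ⁻¹).1 (σ.1 q) = q := σ.1.symm_apply_apply q
  rwa [e] at this

theorem wr_equiv [Finite V] (h : Obj k N X G) (D : Wr X G v) :
    Nonempty (G ≃* ((Om h D → supp G (comp X G v)) ⋊[mulAutArrow] (qgrp h D))) := by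
  classical
  -- translations
  have hex : ∀ q : Quotient (wrS D), ∃ g ∈ G, q ∈ Om h D → Quotient.mk (wrS D) (g v) = q := by
    intro q
    by_cases hq : q ∈ Om h D
    · obtain ⟨⟨_, ⟨g, rfl⟩⟩, e⟩ := hq
      exact ⟨g.1, g.2, fun _ => e⟩
    · exact ⟨1, G.one_mem, fun h => absurd h hq⟩
  choose t htG ht using hex
  have L1 : ∀ q ∈ Om h D, ∀ x, Quotient.mk (wrS D) x = q → (t q)⁻¹ x ∈ comp X G v := by
    rintro q hq x rfl
    have h1 := comp_of_mk D (ht _ hq)
    have h2 := h.comp_smul (G.inv_mem (htG (Quotient.mk (wrS D) x))) h1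
    rwa [inv_app] at h2
  have L2 : ∀ q ∈ Om h D, ∀ y ∈ comp X G v, Quotient.mk (wrS D) (t q y) = q := by
    intro q hq y hy
    have h1 := mk_of_comp D (x := t q v) ⟨t q, htG q, rfl⟩ (h.comp_smul (htG q) hy)
    exact h1.symm.trans (ht q hq)
  -- the base group
  let cm : (Om h D → supp G (comp X G v)) → Quotient (wrS D) → Equiv.Perm V :=
    fun f q => if hq : q ∈ Om h D then t q * (f ⟨q, hq⟩).1 * (t q)⁻¹ else 1
  have cm1 : ∀ f q (hq : q ∈ Om h D), cm f q = t q * (f ⟨q, hq⟩).1 * (t q)⁻¹ := by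
    intro f q hq
    simp only [cm]
    rw [dif_pos hq]
  have cm2 : ∀ f q, q ∉ Om h D → cm f q = 1 := by
    intro f q hq
    simp only [cm]
    rw [dif_neg hq]
  have hpres : ∀ (a : supp G (comp X G v)), ∀ y ∈ comp X G v, a.1 y ∈ comp X G v :=
    fun a y hy => ((supp_le _ a.2).2 y).2 hy
  have cmc : ∀ f x, Quotient.mk (wrS D) (cm f (Quotient.mk (wrS D) x) x) =
      Quotient.mk (wrS D) x := by
    intro f x
    by_cases hq : Quotient.mk (wrS D) x ∈ Om h D
    · rw [cm1 f _ hq]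
      simp only [Equiv.Perm.mul_apply]
      exact L2 _ hq _ (hpres _ _ (L1 _ hq x rfl))
    · rw [cm2 f _ hq]
      rfl
  have hm0 : ∀ f : Om h D → supp G (comp X G v), ∃ τ ∈ G, ∀ x,
      τ x = cm f (Quotient.mk (wrS D) x) x := by
    intro f
    refine glue h D 1 (fun x y _ _ => ⟨1, G.one_mem, rfl, rfl⟩) (cm f) (fun q => ?_) (cmc f)
    by_cases hq : q ∈ Om h D
    · rw [cm1 f _ hq]
      exact G.mul_mem (G.mul_mem (htG q) (f ⟨q, hq⟩).2.1) (G.inv_mem (htG q))
    · rw [cm2 f _ hq]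
      exact G.one_mem
  choose m hmG hm using hm0
  have hm1 : ∀ f q (hq : q ∈ Om h D) x, Quotient.mk (wrS D) x = q →
      m f x = t q ((f ⟨q, hq⟩).1 ((t q)⁻¹ x)) := by
    rintro f q hq x rfl
    rw [hm, cm1 f _ hq]
    rfl
  have hm2 : ∀ f x, Quotient.mk (wrS D) x ∉ Om h D → m f x = x := by
    intro f x hx
    rw [hm, cm2 f _ hx]
    rfl
  have hmc : ∀ f x, Quotient.mk (wrS D) (m f x) = Quotient.mk (wrS D) x := by
    intro f x
    rw [hm]
    exact cmc f x
  -- the complement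
  have hγ0 : ∀ σ : qgrp h D, ∃ g ∈ G, ∀ x, Quotient.mk (wrS D) (g x) =
      σ.1 (Quotient.mk (wrS D) x) := by
    rintro ⟨_, ⟨g, rfl⟩⟩
    exact ⟨g.1, g.2, fun _ => rfl⟩
  choose γ hγG hγ using hγ0
  let cs : qgrp h D → Quotient (wrS D) → Equiv.Perm V :=
    fun σ q => if q ∈ Om h D then t (σ.1 q) * (t q)⁻¹ else γ σ
  have cs1 : ∀ σ q, q ∈ Om h D → cs σ q = t (σ.1 q) * (t q)⁻¹ := by
    intro σ q hq
    simp only [cs]
    rw [if_pos hq]
  have cs2 : ∀ σ q, q ∉ Om h D → cs σ q = γ σ := by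
    intro σ q hq
    simp only [cs]
    rw [if_neg hq]
  have csc : ∀ σ x, Quotient.mk (wrS D) (cs σ (Quotient.mk (wrS D) x) x) =
      σ.1 (Quotient.mk (wrS D) x) := by
    intro σ x
    by_cases hq : Quotient.mk (wrS D) x ∈ Om h D
    · rw [cs1 σ _ hq]
      simp only [Equiv.Perm.mul_apply]
      exact L2 _ (Om_smul h D σ hq) _ (L1 _ hq x rfl)
    · rw [cs2 σ _ hq]
      exact hγ σ x
  have hs0 : ∀ σ : qgrp h D, ∃ τ ∈ G, ∀ x, τ x = cs σ (Quotient.mk (wrS D) x) x := by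
    intro σ
    refine glue h D σ.1 (fun x y _ _ => ⟨γ σ, hγG σ, hγ σ x, hγ σ y⟩) (cs σ) (fun q => ?_) (csc σ)
    by_cases hq : q ∈ Om h D
    · rw [cs1 σ _ hq]
      exact G.mul_mem (htG _) (G.inv_mem (htG q))
    · rw [cs2 σ _ hq]
      exact hγG σ
  choose s hsG hs using hs0
  have hs1 : ∀ σ q, q ∈ Om h D → ∀ x, Quotient.mk (wrS D) x = q →
      s σ x = t (σ.1 q) ((t q)⁻¹ x) := by
    rintro σ q hq x rfl
    rw [hs, cs1 σ _ hq]
    rfl
  have hs2 : ∀ σ x, Quotient.mk (wrS D) x ∉ Om h D → s σ x = γ σ x := by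
    intro σ x hx
    rw [hs, cs2 σ _ hx]
  have hsc : ∀ σ x, Quotient.mk (wrS D) (s σ x) = σ.1 (Quotient.mk (wrS D) x) := by
    intro σ x
    rw [hs]
    exact csc σ x
  -- the homomorphisms
  let M : (Om h D → supp G (comp X G v)) →* G :=
    { toFun := fun f => ⟨m f, hmG f⟩
      map_one' := by
        apply Subtype.ext
        ext x
        by_cases hx : Quotient.mk (wrS D) x ∈ Om h D
        · change m 1 x = x
          rw [hm1 1 _ hx x rfl]
          exact app_inv _ _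
        · exact hm2 1 x hx
      map_mul' := by
        intro f f'
        apply Subtype.ext
        ext x
        change m (f * f') x = m f (m f' x)
        by_cases hx : Quotient.mk (wrS D) x ∈ Om h D
        · rw [hm1 (f * f') _ hx x rfl, hm1 f _ hx (m f' x) (hmc f' x), hm1 f' _ hx x rfl, inv_app]
          rfl
        · rw [hm2 _ x hx, hm2 f' x hx, hm2 f x hx] }
  have hnot : ∀ (σ : qgrp h D) x, Quotient.mk (wrS D) x ∉ Om h D →
      Quotient.mk (wrS D) (s σ x) ∉ Om h D := by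
    intro σ x hx e
    rw [hsc, Om_smul_iff] at e
    exact hx e
  let S : qgrp h D →* G :=
    { toFun := fun σ => ⟨s σ, hsG σ⟩
      map_one' := by
        apply Subtype.ext
        ext x
        by_cases hx : Quotient.mk (wrS D) x ∈ Om h D
        · change s 1 x = x
          rw [hs1 1 _ hx x rfl]
          exact app_inv _ _
        · change s 1 x = x
          rw [hs2 1 x hx]
          exact key1 D (u := 1) (fun e => hx ((mem_Om h D).2 e)) (hγG 1) (hγ 1 x)
      map_mul' := by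
        intro σ σ'
        apply Subtype.ext
        ext x
        change s (σ * σ') x = s σ (s σ' x)
        by_cases hx : Quotient.mk (wrS D) x ∈ Om h D
        · rw [hs1 (σ * σ') _ hx x rfl, hs1 σ _ (Om_smul h D σ' hx) (s σ' x) (hsc σ' x),
            hs1 σ' _ hx x rfl, inv_app]
          rfl
        · rw [hs2 _ x hx, hs2 σ _ (hnot σ' x hx), hs2 σ' x hx]
          refine key1 D (u := γ σ * γ σ') (fun e => hx ((mem_Om h D).2 e)) (hγG _) ?_
          rw [hγ, Equiv.Perm.mul_apply, hγ, hγ]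
          rfl }
  have hconj : ∀ σ : qgrp h D, M.comp (mulAutArrow σ).toMonoidHom =
      (MulAut.conj (S σ)).toMonoidHom.comp M := by
    intro σ
    ext f : 1
    change M (mulAutArrow σ f) = S σ * M f * (S σ)⁻¹
    rw [eq_mul_inv_iff_mul_eq]
    apply Subtype.ext
    ext x
    change m (mulAutArrow σ f) (s σ x) = s σ (m f x)
    by_cases hx : Quotient.mk (wrS D) x ∈ Om h D
    · rw [hm1 _ _ (Om_smul h D σ hx) (s σ x) (hsc σ x), hs1 σ _ hx x rfl, inv_app,
        hs1 σ _ hx (m f x) (hmc f x), hm1 f _ hx x rfl, inv_app]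
      have e : mulAutArrow σ f ⟨σ.1 (Quotient.mk (wrS D) x), Om_smul h D σ hx⟩ =
          f ⟨Quotient.mk (wrS D) x, hx⟩ := by
        change f (σ⁻¹ • _) = _
        congr 1
        apply Subtype.ext
        exact σ.1.symm_apply_apply _
      rw [e]
    · rw [hm2 _ _ (hnot σ x hx), hm2 f x hx]
  refine ⟨(MulEquiv.ofBijective (SemidirectProduct.lift M S hconj) ⟨?_, ?_⟩).symm⟩
  · rw [injective_iff_map_eq_one]
    rintro ⟨f, σ⟩ e
    have e0 : ∀ x, m f (s σ x) = x := by
      intro x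
      have e1 : M f * S σ = 1 := e
      have e2 := congrArg (fun p : G => p.1 x) e1
      exact e2
    have hσ : σ = 1 := by
      apply Subtype.ext
      ext ⟨x⟩
      change σ.1 (Quotient.mk (wrS D) x) = Quotient.mk (wrS D) x
      rw [← hsc, ← hmc f, e0]
    subst hσ
    have e3 : ∀ x, m f x = x := by
      intro x
      have e4 := e0 x
      have e5 : s 1 x = x := congrArg (fun p : G => p.1 x) S.map_one
      rwa [e5] at e4
    have hf : f = 1 := by
      funext ⟨q, hq⟩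
      apply Subtype.ext
      ext y
      by_cases hy : y ∈ comp X G v
      · have e6 := e3 (t q y)
        rw [hm1 f q hq (t q y) (L2 q hq y hy), inv_app] at e6
        exact (t q).injective e6
      · exact (f ⟨q, hq⟩).2.2 y hy
    rw [hf]
    rfl
  · intro g
    let σ : qgrp h D := ⟨rho (wrS D) (wrS_inv h D) g, ⟨g, rfl⟩⟩
    let u : Equiv.Perm V := g.1 * (s σ)⁻¹
    have huG : u ∈ G := G.mul_mem g.2 (G.inv_mem (hsG σ))
    have huc : ∀ x, Quotient.mk (wrS D) (u x) = Quotient.mk (wrS D) x := by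
      intro x
      have e1 := hsc σ ((s σ)⁻¹ x)
      rw [app_inv] at e1
      rw [e1]
      rfl
    have hf0 : ∀ q : Om h D, ∃ a : supp G (comp X G v), ∀ y ∈ comp X G v,
        a.1 y = (t q.1)⁻¹ (u (t q.1 y)) := by
      intro q
      have h1 : (t q.1)⁻¹ * (u * t q.1) ∈ setStab G (comp X G v) :=
        key2 h D (G.mul_mem huG (htG q.1)) (htG q.1) (huc _)
      obtain ⟨τ, hτ, h2, h3⟩ := h.patch h1.1 h1.2 fun x hx n hn hxn =>
        D.fix v ⟨1, G.one_mem, rfl⟩ _ h1 n ⟨hn, x, hx, hxn⟩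
      exact ⟨⟨τ, hτ, h3⟩, h2⟩
    choose f hf using hf0
    refine ⟨⟨f, σ⟩, ?_⟩
    change M f * S σ = g
    have hmu : m f = u := by
      ext x
      by_cases hx : Quotient.mk (wrS D) x ∈ Om h D
      · rw [hm1 f _ hx x rfl, hf ⟨_, hx⟩ _ (L1 _ hx x rfl), app_inv, app_inv]
      · rw [hm2 f x hx]
        exact (key1 D (u := 1) (fun e => hx ((mem_Om h D).2 e)) huG (huc x)).symm
    apply Subtype.ext
    change m f * s σ = g.1
    rw [hmu]
    exact inv_mul_cancel_right g.1 (s σ)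

end Pool.Agent.Lib.MP_b06295_co
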