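import Pool.Agent.Lib.MP_b06295_co.Defs
import Pool.Agent.Lib.MP_b06295_co.B2
import Pool.Agent.Lib.MP_b06295_co.Wreath

/-!
# The main induction
-/

set_option autoImplicit false

namespace Pool.Agent.Lib.MP_b06295_co

open Relation Obj

/-- Finite products of groups in the class are in the class. -/
theorem InW.pi {ι : Type} [Finite ι] : ∀ (A : ι → Type) [∀ i, Group (A i)],
    (∀ i, InW (A i)) → InW (∀ i, A i) := by
  refine Finite.induction_empty_option (P := fun ι : Type => ∀ (A : ι → Type) [∀ i, Group (A i)],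
    (∀ i, InW (A i)) → InW (∀ i, A i)) ?_ ?_ ?_ ι
  · intro α β e ih A _ hA
    have h1 := ih (fun a => A (e a)) fun a => hA (e a)
    refine InW.iso _ _ (MulEquiv.symm (MulEquiv.ofBijective
      ({ toFun := fun f a => f (e a), map_one' := rfl, map_mul' := fun _ _ => rfl } :
        (∀ b, A b) →* ∀ a, A (e a)) ?_)) h1
    exact (Equiv.piCongrLeft A e).symm.bijective
  · intro A _ _
    have : IsCyclic (∀ i : PEmpty, A i) := isCyclic_of_subsingleton
    exact InW.cyclic _
  · intro α _ ih A _ hA
    have h1 := InW.prod _ _ (hA none) (ih (fun a => A (some a)) fun a => hA (some a))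
    refine InW.iso _ _ (MulEquiv.symm
      { toFun := fun f => (f none, fun i => f (some i))
        invFun := fun p o => match o with
          | none => p.1
          | some i => p.2 i
        left_inv := fun f => by
          funext o
          cases o <;> rfl
        right_inv := fun p => rfl
        map_mul' := fun _ _ => rfl }) h1

/-- Finite abelian groups are in the class. -/
theorem InW.of_comm (A : Type) [Group A] [Finite A] (h : ∀ a b : A, a * b = b * a) : InW A := by
  let : CommGroup A := { (inferInstance : Group A) with mul_comm := h }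
  obtain ⟨ι, _, n, hn, ⟨e⟩⟩ := CommGroup.equiv_prod_multiplicative_zmod_of_finite A
  have h1 : InW ((i : ι) → Multiplicative (ZMod (n i))) := by
    refine InW.pi (fun i => Multiplicative (ZMod (n i))) fun i => ?_
    have : NeZero (n i) := ⟨by have := hn i; omega⟩
    have : Finite (Multiplicative (ZMod (n i))) := inferInstance
    exact InW.cyclic _
  exact InW.iso _ _ e.symm h1

theorem supp_comm {k N : ℕ} {V : Type} [Finite V] {X : SimpleGraph V}
    {G : Subgroup (Equiv.Perm V)} (hN : NCond k N) (h : Obj k N X G) (v : V)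
    (a b : supp G (comp X G v)) : a * b = b * a := by
  apply Subtype.ext
  ext x
  by_cases hx : x ∈ comp X G v
  · exact h.comp_comm hN (supp_le _ a.2) (supp_le _ b.2) hx
  · change a.1 (b.1 x) = b.1 (a.1 x)
    rw [a.2.2 x hx, b.2.2 x hx, a.2.2 x hx]

theorem main_aux {k N : ℕ} (hN : NCond k N) : ∀ (n : ℕ) (V : Type) [Finite V] (X : SimpleGraph V)
    (G : Subgroup (Equiv.Perm V)), Nat.card V = n → Obj k N X G → InW G := by
  intro n
  induction n using Nat.strong_induction_on with
  | _ n ih =>
    intro V _ X G hn h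
    by_cases hne : (moved G).Nonempty
    swap
    · have hsub : Subsingleton G := by
        refine ⟨fun a b => ?_⟩
        have key : ∀ a : G, ∀ x, a.1 x = x := by
          intro a x
          by_contra hcon
          exact hne ⟨x, a.1, a.2, hcon⟩
        apply Subtype.ext
        ext x
        rw [key a, key b]
      have : IsCyclic G := isCyclic_of_subsingleton
      exact InW.cyclic _
    by_cases hA : ∀ v w, X.Adj v w → (∀ g ∈ G, g v = v ↔ g w = w) → ∃ g ∈ G, g v = w
    swap
    · push Not at hA
      obtain ⟨v, w, hvw, hst, horb⟩ := hA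
      obtain ⟨W, _, Y, G', hlt, hobj, ⟨e⟩⟩ := caseA h hvw hst (by push Not; exact horb)
      exact InW.iso _ _ e.symm (ih _ (hn ▸ hlt) W Y G' rfl hobj)
    by_cases hB : ∀ v ∈ Obj.tame X G, ∀ a ∈ G, (∀ x, x ∉ comp X G v → a x = x) → a = 1
    · exact (h.no_B2 hN hA hB hne).elim
    push Not at hB
    obtain ⟨v, hv, a, ha, hsupp, hne1⟩ := hB
    have hreg : ∀ x y, y ∈ comp X G x → ∃ g ∈ G, g x = y := fun x y hy => regular hA hy
    have D : Wr X G v := by
      refine ⟨hv, hreg, ?_⟩
      rintro _ ⟨d, hd, rfl⟩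
      refine h.bd_fixed hN (a := d * a * d⁻¹) ⟨G.mul_mem (G.mul_mem hd ha) (G.inv_mem hd), ?_⟩ ?_
      · intro x hx
        have h1 : d⁻¹ x ∉ comp X G v := by
          intro e
          apply hx
          have := h.comp_smul hd e
          rwa [app_inv] at this
        simp only [Equiv.Perm.mul_apply]
        rw [hsupp _ h1, app_inv]
      · intro e
        apply hne1
        have : a = d⁻¹ * (d * a * d⁻¹) * d := by group
        rw [this, e]
        group
    obtain ⟨e⟩ := wr_equiv h D
    obtain ⟨x, hx, hax⟩ : ∃ x ∈ comp X G v, a x ≠ x := by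
      by_contra hcon
      push Not at hcon
      apply hne1
      ext x
      by_cases hx : x ∈ comp X G v
      · exact hcon x hx
      · exact hsupp x hx
    have hax' : a x ∈ comp X G v := ((supp_le _ (⟨ha, hsupp⟩ : a ∈ supp G (comp X G v))).2 x).2 hx
    have hlt : Nat.card (Quotient (wrS D)) < Nat.card V :=
      card_quot_lt (wrS D) hax.symm (Or.inr ⟨hreg v x hx, comp_trans (comp_symm hx) hax'⟩)
    have h1 : InW (qgrp h D) := ih _ (hn ▸ hlt) _ _ _ rfl (wr_obj h D)
    have h2 : InW (supp G (comp X G v)) := InW.of_comm _ (supp_comm hN h v)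
    have hfin : Finite (Om h D) := inferInstance
    exact InW.iso _ _ e.symm (InW.wreath _ _ _ h2 h1)

/-- The automorphism group as a group of permutations. -/
def autP {V : Type} (X : SimpleGraph V) : Subgroup (Equiv.Perm V) where
  carrier := {σ | ∀ x y, X.Adj (σ x) (σ y) ↔ X.Adj x y}
  mul_mem' := by
    intro a b ha hb x y
    rw [Equiv.Perm.mul_apply, Equiv.Perm.mul_apply, ha, hb]
  one_mem' := fun _ _ => Iff.rfl
  inv_mem' := by
    intro a ha x y
    rw [← ha, app_inv, app_inv]

theorem autP_of_map {V : Type} [Finite V] {X : SimpleGraph V} {σ : Equiv.Perm V}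
    (h : ∀ x y, X.Adj x y → X.Adj (σ x) (σ y)) : σ ∈ autP X := by
  intro x y
  refine ⟨fun hxy => ?_, h x y⟩
  have hpow : ∀ n : ℕ, ∀ x y, X.Adj x y → X.Adj ((σ ^ n) x) ((σ ^ n) y) := by
    intro n
    induction n with
    | zero => exact fun _ _ h => h
    | succ n ih =>
      intro x y hxy
      rw [pow_succ]
      exact ih _ _ (h x y hxy)
  have h1 := hpow (orderOf σ - 1) _ _ hxy
  have h2 : ∀ z, (σ ^ (orderOf σ - 1)) (σ z) = z := by
    intro z
    have h3 : σ ^ (orderOf σ - 1) * σ = 1 := by
      rw [← pow_succ, Nat.sub_add_cancel (orderOf_pos σ), pow_orderOf_eq_one]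
    exact congrArg (fun p : Equiv.Perm V => p z) h3
  rwa [h2, h2] at h1

theorem autP_obj {V : Type} [Finite V] {X : SimpleGraph V} {k N : ℕ}
    (hbig : Big N (Nat.card (autP X))) (hk : ¬ HasK X k) : Obj k N X (autP X) where
  adj g hg x y := (hg x y).2
  closed := by
    intro σ _ h2
    refine autP_of_map fun x y hxy => ?_
    obtain ⟨g, hg, e1, e2⟩ := h2 x y hxy
    rw [← e1, ← e2]
    exact (hg x y).2 hxy
  big := hbig
  nok := hk

/-- The isomorphism of the two versions of the automorphism group. -/
def autEquiv {V : Type} (X : SimpleGraph V) : (X ≃g X) ≃* autP X where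
  toFun e := ⟨e.toEquiv, fun _ _ => e.map_rel_iff⟩
  invFun σ := ⟨σ.1, fun {x y} => σ.2 x y⟩
  left_inv _ := rfl
  right_inv _ := rfl
  map_mul' _ _ := rfl

theorem isMinor_of_hasK {V : Type} {X : SimpleGraph V} {k : ℕ} (h : HasK X k) :
    IsMinor (⊤ : SimpleGraph (Fin k)) X := by
  obtain ⟨B, h1, h2, h3⟩ := h
  exact ⟨B, fun i => (h1 i).induce, h2, fun i j hij => h3 i j hij⟩

/-- Automorphism groups of graphs without `K_k` minor, if no prime `≤ 2 ^ k` divides the order. -/
theorem main_k {k : ℕ} {V : Type} [Finite V] {X : SimpleGraph V}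
    (hk : ¬ IsMinor (⊤ : SimpleGraph (Fin k)) X) {G : Type} [Group G] (e : G ≃* (X ≃g X))
    (hp : ∀ p : ℕ, p.Prime → p ∣ Nat.card G → 2 ^ k + 1 ≤ p) : InW G := by
  have hk' : ¬ HasK X k := fun h => hk (isMinor_of_hasK h)
  have hk0 : k ≠ 0 := by
    rintro rfl
    exact hk' ⟨fun i => i.elim0, fun i => i.elim0, fun i => i.elim0, fun i => i.elim0⟩
  have hN : NCond k (2 ^ k + 1) := by
    have h1 : k < 2 ^ k := Nat.lt_two_pow_self
    have h2 : k * k ≤ 2 ^ k + 1 := by
      rcases Nat.lt_or_ge k 4 with h | h
      · interval_cases k <;> norm_num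
      · have : ∀ n, 4 ≤ n → n * n ≤ 2 ^ n := by
          intro n hn
          induction n, hn using Nat.le_induction with
          | base => norm_num
          | succ n hn ih =>
            rw [pow_succ]
            nlinarith
        exact (this k h).trans (Nat.le_succ _)
    have h3 : 2 * k ≤ 2 ^ k + 1 := by
      rcases Nat.lt_or_ge k 2 with h | h
      · interval_cases k <;> norm_num
      · nlinarith
    refine ⟨le_rfl, h3, h2, ?_⟩
    have : 2 ^ 1 ≤ 2 ^ k := Nat.pow_le_pow_right (by norm_num) (Nat.one_le_iff_ne_zero.2 hk0)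
    omega
  have hbig : Big (2 ^ k + 1) (Nat.card (autP X)) := by
    rw [← Nat.card_congr (e.trans (autEquiv X)).toEquiv]
    exact hp
  exact InW.iso _ _ (e.trans (autEquiv X)).symm
    (main_aux hN _ V X (autP X) rfl (autP_obj hbig hk'))

end Pool.Agent.Lib.MP_b06295_co
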