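import Pool.Agent.Lib.MP_b06295_co.Free

/-!
# Closed permutation groups of graphs without `K_k` minor

`Obj k N X G`: `X` is a graph without `K_k` minor, `G` is a group of automorphisms of `X` whose
order has no prime divisor below `N`, and `G` is closed: every permutation of the vertices which on
each vertex and on each edge agrees with some element of `G` is in `G`.
-/

set_option autoImplicit false

namespace Pool.Agent.Lib.MP_b06295_co

open Relation

variable {V : Type} {k N : ℕ} {X : SimpleGraph V} {G : Subgroup (Equiv.Perm V)}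

/-- The objects of the induction. -/
structure Obj (k N : ℕ) (X : SimpleGraph V) (G : Subgroup (Equiv.Perm V)) : Prop where
  adj : ∀ g ∈ G, ∀ x y, X.Adj x y → X.Adj (g x) (g y)
  closed : ∀ σ : Equiv.Perm V, (∀ x, ∃ g ∈ G, g x = σ x) →
    (∀ x y, X.Adj x y → ∃ g ∈ G, g x = σ x ∧ g y = σ y) → σ ∈ G
  big : Big N (Nat.card G)
  nok : ¬ HasK X k

theorem inv_app (g : Equiv.Perm V) (x : V) : g⁻¹ (g x) = x := g.symm_apply_apply x

theorem app_inv (g : Equiv.Perm V) (x : V) : g (g⁻¹ x) = x := g.apply_symm_apply x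

namespace Obj

theorem mem_of_fun [Finite V] (h : Obj k N X G) (f : V → V) (hinj : Function.Injective f)
    (h1 : ∀ x, ∃ g ∈ G, g x = f x) (h2 : ∀ x y, X.Adj x y → ∃ g ∈ G, g x = f x ∧ g y = f y) :
    ∃ τ ∈ G, ∀ x, τ x = f x :=
  ⟨Equiv.ofBijective f (Finite.injective_iff_bijective.1 hinj), h.closed _ h1 h2, fun _ => rfl⟩

theorem adj_iff (h : Obj k N X G) {g : Equiv.Perm V} (hg : g ∈ G) {x y : V} :
    X.Adj (g x) (g y) ↔ X.Adj x y := by
  constructor
  · intro hxy
    have := h.adj g⁻¹ (G.inv_mem hg) _ _ hxy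
    simpa using this
  · exact h.adj g hg x y

/-- Modify an element of the group outside of a set. -/
theorem patch [Finite V] (h : Obj k N X G) {K : Set V} {g : Equiv.Perm V} (hg : g ∈ G)
    (hK : ∀ x, g x ∈ K ↔ x ∈ K) (hN : ∀ x ∈ K, ∀ n, n ∉ K → X.Adj x n → g n = n) :
    ∃ τ ∈ G, (∀ x ∈ K, τ x = g x) ∧ ∀ x, x ∉ K → τ x = x := by
  classical
  obtain ⟨τ, hτ, h1⟩ := h.mem_of_fun (fun x => if x ∈ K then g x else x) (by
      intro x y hxy
      simp only at hxy
      split_ifs at hxy with h1 h2 h2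
      · exact g.injective hxy
      · exact absurd (hxy ▸ (hK x).2 h1) h2
      · exact absurd (hxy.symm ▸ (hK y).2 h2) h1
      · exact hxy) (by
      intro x
      by_cases hx : x ∈ K
      · exact ⟨g, hg, by simp [hx]⟩
      · exact ⟨1, G.one_mem, by simp [hx]⟩) (by
      intro x y hxy
      by_cases hx : x ∈ K <;> by_cases hy : y ∈ K
      · exact ⟨g, hg, by simp [hx], by simp [hy]⟩
      · exact ⟨g, hg, by simp [hx], by simp [hy, hN x hx y hy hxy]⟩
      · exact ⟨g, hg, by simp [hx, hN y hy x hx hxy.symm], by simp [hy]⟩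
      · exact ⟨1, G.one_mem, by simp [hx], by simp [hy]⟩)
  exact ⟨τ, hτ, fun x hx => by simp [h1, hx], fun x hx => by simp [h1, hx]⟩

/-- No element of the group exchanges a set with a disjoint nonadjacent set with the same
boundary: otherwise there would be an involution. -/
theorem no_swap [Finite V] (hN3 : 3 ≤ N) (h : Obj k N X G) {K : Set V} (hne : K.Nonempty)
    {g : Equiv.Perm V} (hg : g ∈ G) (h1 : ∀ x ∈ K, g x ∉ K)
    (h2 : ∀ x ∈ K, ∀ y ∈ K, ¬ X.Adj x (g y))
    (h3 : ∀ x ∈ K, ∀ n, n ∉ K → X.Adj x n → g n = n) : False := by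
  classical
  let f : V → V := fun x => if x ∈ K then g x else if g⁻¹ x ∈ K then g⁻¹ x else x
  have f1 : ∀ x ∈ K, f x = g x := fun x hx => by simp [f, hx]
  have f2 : ∀ x, g⁻¹ x ∈ K → f x = g⁻¹ x := by
    intro x hx
    have : x ∉ K := by
      have := h1 _ hx
      rwa [app_inv] at this
    change (if x ∈ K then g x else if g⁻¹ x ∈ K then g⁻¹ x else x) = g⁻¹ x
    rw [if_neg this, if_pos hx]
  have f3 : ∀ x, x ∉ K → g⁻¹ x ∉ K → f x = x := by
    intro x hx hx'
    change (if x ∈ K then g x else if g⁻¹ x ∈ K then g⁻¹ x else x) = x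
    rw [if_neg hx, if_neg hx']
  have finv : ∀ x, f (f x) = x := by
    intro x
    by_cases hx : x ∈ K
    · rw [f1 x hx, f2 _ (by rw [inv_app]; exact hx), inv_app]
    · by_cases hx' : g⁻¹ x ∈ K
      · rw [f2 x hx', f1 _ hx', app_inv]
      · rw [f3 x hx hx', f3 x hx hx']
  obtain ⟨τ, hτ, hf⟩ := h.mem_of_fun f (Function.Involutive.injective finv) (by
      intro x
      by_cases hx : x ∈ K
      · exact ⟨g, hg, (f1 x hx).symm⟩
      · by_cases hx' : g⁻¹ x ∈ K
        · exact ⟨g⁻¹, G.inv_mem hg, (f2 x hx').symm⟩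
        · exact ⟨1, G.one_mem, (f3 x hx hx').symm⟩) (by
      have key : ∀ x y, X.Adj x y → x ∈ K → ∃ g ∈ G, g x = f x ∧ g y = f y := by
        intro x y hxy hx
        by_cases hy : y ∈ K
        · exact ⟨g, hg, (f1 x hx).symm, (f1 y hy).symm⟩
        · have e1 := h3 x hx y hy hxy
          have hy' : g⁻¹ y ∉ K := by
            intro hy'
            apply h2 x hx _ hy'
            simpa using hxy
          exact ⟨g, hg, (f1 x hx).symm, by rw [f3 y hy hy', e1]⟩
      have key2 : ∀ x y, X.Adj x y → g⁻¹ x ∈ K → ∃ g ∈ G, g x = f x ∧ g y = f y := by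
        intro x y hxy hx
        have hadj : X.Adj (g⁻¹ x) (g⁻¹ y) := h.adj _ (G.inv_mem hg) _ _ hxy
        by_cases hy : g⁻¹ y ∈ K
        · exact ⟨g⁻¹, G.inv_mem hg, (f2 x hx).symm, (f2 y hy).symm⟩
        · have e1 := h3 _ hx _ hy hadj
          have e2 : g⁻¹ y = y := by
            have : g (g⁻¹ y) = y := by simp
            rw [← e1, this]
          have hy' : y ∉ K := by
            intro hy'
            rw [e2] at hy
            exact hy hy'
          exact ⟨g⁻¹, G.inv_mem hg, (f2 x hx).symm, by rw [f3 y hy' hy, e2]⟩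
      intro x y hxy
      by_cases hx : x ∈ K
      · exact key x y hxy hx
      by_cases hx' : g⁻¹ x ∈ K
      · exact key2 x y hxy hx'
      by_cases hy : y ∈ K
      · obtain ⟨u, hu, e1, e2⟩ := key y x hxy.symm hy
        exact ⟨u, hu, e2, e1⟩
      by_cases hy' : g⁻¹ y ∈ K
      · obtain ⟨u, hu, e1, e2⟩ := key2 y x hxy.symm hy'
        exact ⟨u, hu, e2, e1⟩
      exact ⟨1, G.one_mem, (f3 x hx hx').symm, (f3 y hy hy').symm⟩)
  have hτ2 : τ ^ 2 = 1 := by
    ext x
    rw [pow_two, Equiv.Perm.mul_apply, hf, hf, finv]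
    rfl
  have hτ1 : τ ≠ 1 := by
    obtain ⟨x, hx⟩ := hne
    intro e
    have : τ x = x := by rw [e]; rfl
    rw [hf, f1 x hx] at this
    exact h1 x hx (this.symm ▸ hx)
  have hord : orderOf (⟨τ, hτ⟩ : G) = 2 := by
    refine orderOf_eq_prime ?_ ?_
    · exact Subtype.ext hτ2
    · intro e
      exact hτ1 (congrArg Subtype.val e)
  have := h.big 2 Nat.prime_two (hord ▸ orderOf_dvd_natCard _)
  omega

/-- The vertices moved by the group. -/
def moved (G : Subgroup (Equiv.Perm V)) : Set V := {x | ∃ g ∈ G, g x ≠ x}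

/-- The tame vertices: moved, and their stabiliser fixes all neighbours. -/
def tame (X : SimpleGraph V) (G : Subgroup (Equiv.Perm V)) : Set V :=
  {v | v ∈ moved G ∧ ∀ g ∈ G, g v = v → ∀ w, X.Adj v w → g w = w}

/-- The component of a tame vertex in the graph of tame vertices. -/
def comp (X : SimpleGraph V) (G : Subgroup (Equiv.Perm V)) (v : V) : Set V :=
  {w | ReflTransGen (Step X (tame X G)) v w}

theorem comp_self (v : V) : v ∈ comp X G v := ReflTransGen.refl

theorem comp_symm {v w : V} (h : w ∈ comp X G v) : v ∈ comp X G w := rtg_symm h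

theorem comp_trans {u v w : V} (h : v ∈ comp X G u) (h' : w ∈ comp X G v) : w ∈ comp X G u :=
  ReflTransGen.trans h h'

theorem comp_tame {v w : V} (hv : v ∈ tame X G) (h : w ∈ comp X G v) : w ∈ tame X G :=
  rtg_mem h hv

theorem comp_nbr {v x y : V} (hv : v ∈ tame X G) (hx : x ∈ comp X G v) (hxy : X.Adj x y)
    (hy : y ∈ tame X G) : y ∈ comp X G v :=
  ReflTransGen.tail hx ⟨comp_tame hv hx, hy, hxy⟩

theorem comp_conn (v : V) : Conn X (comp X G v) := by
  refine conn_of_base (comp_self v) fun b hb => ?_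
  have : ∀ b, ReflTransGen (Step X (tame X G)) v b → ReflTransGen (Step X (comp X G v)) v b := by
    intro b hb
    induction hb with
    | refl => exact ReflTransGen.refl
    | tail h1 h2 ih => exact ih.tail ⟨h1, h1.tail h2, h2.2.2⟩
  exact this b hb

theorem moved_smul {g : Equiv.Perm V} (hg : g ∈ G) {v : V} (hv : v ∈ moved G) :
    g v ∈ moved G := by
  obtain ⟨u, hu, huv⟩ := hv
  refine ⟨g * u * g⁻¹, G.mul_mem (G.mul_mem hg hu) (G.inv_mem hg), ?_⟩
  simp only [Equiv.Perm.mul_apply, inv_app]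
  exact fun e => huv (g.injective e)

theorem tame_smul (h : Obj k N X G) {g : Equiv.Perm V} (hg : g ∈ G) {v : V}
    (hv : v ∈ tame X G) : g v ∈ tame X G := by
  refine ⟨moved_smul hg hv.1, fun u hu huv w hw => ?_⟩
  have h1 : (g⁻¹ * u * g) v = v := by
    simp only [Equiv.Perm.mul_apply, huv, inv_app]
  have h2 : X.Adj v (g⁻¹ w) := by
    have := h.adj g⁻¹ (G.inv_mem hg) _ _ hw
    simpa using this
  have h3 := hv.2 _ (G.mul_mem (G.mul_mem (G.inv_mem hg) hu) hg) h1 _ h2
  simp only [Equiv.Perm.mul_apply, app_inv] at h3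
  have h4 := congrArg g h3
  simpa using h4

theorem comp_smul (h : Obj k N X G) {g : Equiv.Perm V} (hg : g ∈ G) {v w : V}
    (hw : w ∈ comp X G v) : g w ∈ comp X G (g v) := by
  have : ∀ w, ReflTransGen (Step X (tame X G)) v w →
      ReflTransGen (Step X (tame X G)) (g v) (g w) := by
    intro w hw
    induction hw with
    | refl => exact ReflTransGen.refl
    | tail _ h2 ih =>
      exact ih.tail ⟨h.tame_smul hg h2.1, h.tame_smul hg h2.2.1, h.adj g hg _ _ h2.2.2⟩
  exact this w hw

theorem stab_comp {v w : V} (hw : w ∈ comp X G v) {g : Equiv.Perm V}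
    (hg : g ∈ G) (hgv : g v = v) : g w = w := by
  have : ∀ w, ReflTransGen (Step X (tame X G)) v w → g w = w := by
    intro w hw
    induction hw with
    | refl => exact hgv
    | tail h1 h2 ih => exact h2.1.2 g hg ih _ h2.2.2
  exact this w hw

theorem stab_nbr {v w n : V} (hv : v ∈ tame X G) (hw : w ∈ comp X G v) (hwn : X.Adj w n)
    {g : Equiv.Perm V} (hg : g ∈ G) (hgv : g v = v) : g n = n :=
  (comp_tame hv hw).2 g hg (stab_comp hw hg hgv) n hwn

/-- The vertices of small degree (not counting fixed neighbours) are tame. -/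
theorem tame_of_small [Finite V] (h : Obj k N X G) {v : V} (hv : v ∈ moved G)
    (hd : {w | X.Adj v w ∧ w ∈ moved G}.ncard < N) : v ∈ tame X G := by
  refine ⟨hv, fun g hg hgv w hw => ?_⟩
  by_cases hwm : w ∈ moved G
  · let H : Subgroup (Equiv.Perm V) := G ⊓ MulAction.stabilizer (Equiv.Perm V) v
    have hH : Big N (Nat.card H) := h.big.of_dvd (Subgroup.card_dvd_of_le inf_le_left)
    rcases orbit_card (α := V) hH w with h1 | h1
    · exact h1 ⟨g, hg, hgv⟩
    · exfalso
      have hsub : MulAction.orbit H w ⊆ {w | X.Adj v w ∧ w ∈ moved G} := by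
        rintro _ ⟨⟨u, hu, huv⟩, rfl⟩
        refine ⟨?_, moved_smul hu hwm⟩
        have h2 := h.adj u hu _ _ hw
        have h3 : u v = v := huv
        rw [h3] at h2
        exact h2
      have := Set.ncard_le_ncard hsub (Set.toFinite _)
      omega
  · by_contra hcon
    exact hwm ⟨g, hg, hcon⟩

/-- If some vertex is moved then there is a tame vertex. -/
theorem exists_tame [Finite V] (hN : NCond k N) (h : Obj k N X G) (hne : (moved G).Nonempty) :
    (tame X G).Nonempty := by
  by_contra hcon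
  rw [Set.not_nonempty_iff_eq_empty] at hcon
  have hne' : Nonempty (moved G) := hne.to_subtype
  apply h.nok
  refine HasK.of_induce (s := moved G) (mader k fun v => ?_)
  by_contra hlt
  push Not at hlt
  have h1 : {w | X.Adj v.1 w ∧ w ∈ moved G}.ncard < N := by
    have h2 : {w | X.Adj v.1 w ∧ w ∈ moved G} =
        (fun x : moved G => (x : V)) '' {w | (X.induce (moved G)).Adj v w} := by
      ext w
      constructor
      · rintro ⟨h3, h4⟩
        exact ⟨⟨w, h4⟩, h3, rfl⟩
      · rintro ⟨⟨w, h4⟩, h3, rfl⟩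
        exact ⟨h3, h4⟩
    rw [h2, Set.ncard_image_of_injective _ Subtype.val_injective]
    have := hN.pow
    omega
  have h3 := h.tame_of_small v.2 h1
  rw [hcon] at h3
  exact h3

end Obj

end Pool.Agent.Lib.MP_b06295_co
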