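import Pool.Agent.Lib.MP_b06295_co.Comm

/-!
# Contraction of invariant partitions into connected classes

`quot_obj`: the quotient is again an object if the quotient group is closed. `caseA`: contraction
of a tame edge between two orbits.
-/

set_option autoImplicit false

namespace Pool.Agent.Lib.MP_b06295_co

open Relation

variable {V : Type} {k N : ℕ} {X : SimpleGraph V} {G : Subgroup (Equiv.Perm V)}

/-- The permutation of the classes induced by an element of the group. -/
def rhoPerm (r : Setoid V) (hr : ∀ g ∈ G, ∀ x y, r x y → r (g x) (g y)) (g : G) :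
    Equiv.Perm (Quotient r) where
  toFun := Quotient.map g.1 (hr g.1 g.2)
  invFun := Quotient.map (g.1⁻¹ : Equiv.Perm V) (hr _ (G.inv_mem g.2))
  left_inv := by
    rintro ⟨x⟩
    exact congrArg (Quotient.mk r) (inv_app g.1 x)
  right_inv := by
    rintro ⟨x⟩
    exact congrArg (Quotient.mk r) (app_inv g.1 x)

/-- The action on the classes. -/
def rho (r : Setoid V) (hr : ∀ g ∈ G, ∀ x y, r x y → r (g x) (g y)) :
    G →* Equiv.Perm (Quotient r) where
  toFun := rhoPerm r hr
  map_one' := by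
    ext ⟨x⟩
    rfl
  map_mul' := by
    intro a b
    ext ⟨x⟩
    rfl

theorem rho_mk (r : Setoid V) (hr : ∀ g ∈ G, ∀ x y, r x y → r (g x) (g y)) (g : G) (x : V) :
    rho r hr g (Quotient.mk r x) = Quotient.mk r (g.1 x) := rfl

/-- The graph of the classes. -/
def qg (X : SimpleGraph V) (r : Setoid V) : SimpleGraph (Quotient r) :=
  quotGraph X fun q => {x | Quotient.mk r x = q}

theorem qg_adj_mk {r : Setoid V} {x y : V} (h : X.Adj x y) (hr : ¬ r x y) :
    (qg X r).Adj (Quotient.mk r x) (Quotient.mk r y) :=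
  ⟨fun e => hr (Quotient.exact e), x, rfl, y, rfl, h⟩

theorem quot_obj (h : Obj k N X G) (r : Setoid V)
    (hr : ∀ g ∈ G, ∀ x y, r x y → r (g x) (g y))
    (hconn : ∀ q : Quotient r, Conn X {x | Quotient.mk r x = q})
    (hcl : ∀ σ : Equiv.Perm (Quotient r),
      (∀ x, ∃ g ∈ G, Quotient.mk r (g x) = σ (Quotient.mk r x)) →
      (∀ x y, X.Adj x y → ¬ r x y → ∃ g ∈ G, Quotient.mk r (g x) = σ (Quotient.mk r x) ∧
        Quotient.mk r (g y) = σ (Quotient.mk r y)) →
      ∃ τ ∈ G, ∀ x, Quotient.mk r (τ x) = σ (Quotient.mk r x)) :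
    Obj k N (qg X r) (rho r hr).range where
  adj := by
    rintro _ ⟨g, rfl⟩ p q ⟨hpq, x, rfl, y, rfl, hxy⟩
    refine ⟨fun e => hpq ((rho r hr g).injective e), g.1 x, rfl, g.1 y, rfl,
      h.adj g.1 g.2 _ _ hxy⟩
  closed := by
    intro σ h1 h2
    obtain ⟨τ, hτ, h3⟩ := hcl σ (by
        intro x
        obtain ⟨_, ⟨g, rfl⟩, hg⟩ := h1 (Quotient.mk r x)
        exact ⟨g.1, g.2, hg⟩) (by
        intro x y hxy hxr
        obtain ⟨_, ⟨g, rfl⟩, hg1, hg2⟩ := h2 _ _ (qg_adj_mk hxy hxr)
        exact ⟨g.1, g.2, hg1, hg2⟩)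
    refine ⟨⟨τ, hτ⟩, ?_⟩
    ext ⟨x⟩
    exact h3 x
  big := h.big.of_dvd (Subgroup.card_range_dvd _)
  nok := by
    intro hk
    refine h.nok (hasK_of_quot hconn (fun p q hpq => ?_) hk)
    rw [Set.disjoint_left]
    rintro x (rfl : Quotient.mk r x = p) (hx : Quotient.mk r x = q)
    exact hpq hx

theorem card_quot_lt [Finite V] (r : Setoid V) {x y : V} (hxy : x ≠ y) (hr : r x y) :
    Nat.card (Quotient r) < Nat.card V := by
  classical
  have := Fintype.ofFinite V
  have := Fintype.ofFinite (Quotient r)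
  rw [Nat.card_eq_fintype_card, Nat.card_eq_fintype_card]
  exact Fintype.card_lt_of_surjective_not_injective (Quotient.mk r) Quotient.mk_surjective
    fun hinj => hxy (hinj (Quotient.sound hr))

/-- Case A: there is an edge between two vertices in different orbits with the same stabiliser.
Contraction of its orbit gives a smaller object with an isomorphic group. -/
theorem caseA [Finite V] (h : Obj k N X G) {v w : V} (hvw : X.Adj v w)
    (hst : ∀ g ∈ G, g v = v ↔ g w = w) (horb : ¬ ∃ g ∈ G, g v = w) :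
    ∃ (W : Type) (_ : Finite W) (Y : SimpleGraph W) (G' : Subgroup (Equiv.Perm W)),
      Nat.card W < Nat.card V ∧ Obj k N Y G' ∧ Nonempty (G ≃* G') := by
  classical
  have hstd : ∀ g ∈ G, ∀ u ∈ G, g w = u w → g v = u v := by
    intro g hg u hu e
    have e1 : (u⁻¹ * g) w = w := by rw [Equiv.Perm.mul_apply, e, inv_app]
    have e2 := (hst _ (G.mul_mem (G.inv_mem hu) hg)).2 e1
    rw [Equiv.Perm.mul_apply] at e2
    have e3 := congrArg u e2
    rwa [app_inv] at e3
  have hstd' : ∀ g ∈ G, ∀ u ∈ G, g v = u v → g w = u w := by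
    intro g hg u hu e
    have e1 : (u⁻¹ * g) v = v := by rw [Equiv.Perm.mul_apply, e, inv_app]
    have e2 := (hst _ (G.mul_mem (G.inv_mem hu) hg)).1 e1
    rw [Equiv.Perm.mul_apply] at e2
    have e3 := congrArg u e2
    rwa [app_inv] at e3
  -- the collapse
  let f : V → V := fun x => if hx : ∃ g ∈ G, g w = x then hx.choose v else x
  have f1 : ∀ g ∈ G, f (g w) = g v := by
    intro g hg
    have hx : ∃ u ∈ G, u w = g w := ⟨g, hg, rfl⟩
    have : f (g w) = hx.choose v := by
      simp only [f]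
      rw [dif_pos hx]
    rw [this]
    exact hstd _ hx.choose_spec.1 _ hg hx.choose_spec.2
  have f2 : ∀ x, (¬ ∃ g ∈ G, g w = x) → f x = x := by
    intro x hx
    simp only [f]
    rw [dif_neg hx]
  have hov : ∀ g ∈ G, ¬ ∃ u ∈ G, u w = g v := by
    rintro g hg ⟨u, hu, e⟩
    apply horb
    refine ⟨u⁻¹ * g, G.mul_mem (G.inv_mem hu) hg, ?_⟩
    rw [Equiv.Perm.mul_apply, ← e, inv_app]
  have f3 : ∀ g ∈ G, f (g v) = g v := fun g hg => f2 _ (hov g hg)
  have f4 : ∀ x, f (f x) = f x := by
    intro x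
    by_cases hx : ∃ g ∈ G, g w = x
    · obtain ⟨g, hg, rfl⟩ := hx
      rw [f1 g hg, f3 g hg]
    · rw [f2 x hx, f2 x hx]
  have f5 : ∀ g ∈ G, ∀ x, f (g x) = g (f x) := by
    intro g hg x
    by_cases hx : ∃ g ∈ G, g w = x
    · obtain ⟨u, hu, rfl⟩ := hx
      rw [f1 u hu]
      exact f1 (g * u) (G.mul_mem hg hu)
    · rw [f2 x hx, f2]
      rintro ⟨u, hu, e⟩
      exact hx ⟨g⁻¹ * u, G.mul_mem (G.inv_mem hg) hu, by
        rw [Equiv.Perm.mul_apply, e, inv_app]⟩
  let r : Setoid V := Setoid.ker f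
  have hrdef : ∀ x y, r x y ↔ f x = f y := fun x y => Setoid.ker_def
  have hr : ∀ g ∈ G, ∀ x y, r x y → r (g x) (g y) := by
    intro g hg x y hxy
    rw [hrdef] at hxy ⊢
    rw [f5 g hg, f5 g hg, hxy]
  -- stabilisers of classes act trivially
  have htriv : ∀ g ∈ G, ∀ x, r (g x) x → g x = x := by
    intro g hg x hx
    rw [hrdef, f5 g hg] at hx
    by_cases hxw : ∃ g ∈ G, g w = x
    · obtain ⟨u, hu, rfl⟩ := hxw
      rw [f1 u hu] at hx
      exact hstd' (g * u) (G.mul_mem hg hu) u hu hx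
    · rwa [f2 x hxw] at hx
  have hsame : ∀ g ∈ G, ∀ u ∈ G, ∀ x, Quotient.mk r (g x) = Quotient.mk r (u x) → g x = u x := by
    intro g hg u hu x e
    have e1 := hr u⁻¹ (G.inv_mem hu) _ _ (Quotient.exact e)
    rw [inv_app] at e1
    have e2 := htriv (u⁻¹ * g) (G.mul_mem (G.inv_mem hu) hg) x e1
    have e3 := congrArg u e2
    rwa [Equiv.Perm.mul_apply, app_inv] at e3
  have hconn : ∀ q : Quotient r, Conn X {x | Quotient.mk r x = q} := by
    rintro ⟨x⟩
    have hset : {y | Quotient.mk r y = Quotient.mk r x} =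
        insert (f x) {y | ∃ g ∈ G, g w = y ∧ g v = f x} := by
      ext y
      have e0 : Quotient.mk r y = Quotient.mk r x ↔ f y = f x := by
        rw [Quotient.eq]
        exact hrdef y x
      change Quotient.mk r y = Quotient.mk r x ↔ _
      rw [e0]
      constructor
      · intro e
        by_cases hy : ∃ g ∈ G, g w = y
        · obtain ⟨g, hg, rfl⟩ := hy
          exact Or.inr ⟨g, hg, rfl, by rw [← e, f1 g hg]⟩
        · left
          rw [← e, f2 y hy]
      · rintro (rfl | ⟨g, hg, rfl, e⟩)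
        · exact f4 x
        · rw [f1 g hg, e]
    change Conn X {y | Quotient.mk r y = Quotient.mk r x}
    rw [hset]
    refine conn_star ?_
    rintro y ⟨g, hg, rfl, e⟩
    rw [← e]
    exact h.adj g hg _ _ hvw
  have hobj := quot_obj h r hr hconn (by
    intro σ h1 h2
    choose c hc hcσ using h1
    have key : ∀ g ∈ G, ∀ x, Quotient.mk r (g x) = σ (Quotient.mk r x) → g x = c x x := by
      intro g hg x e
      exact hsame g hg _ (hc x) x (e.trans (hcσ x).symm)
    obtain ⟨τ, hτ, h3⟩ := h.mem_of_fun (fun x => c x x) (by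
        intro x y (hxy : c x x = c y y)
        have e1 : σ (Quotient.mk r x) = σ (Quotient.mk r y) := by
          rw [← hcσ, ← hcσ, hxy]
        have e2 := σ.injective e1
        have e3 : c x y = c y y := key _ (hc x) y (by
          rw [← e2, ← hcσ x]
          exact Quotient.sound (hr _ (hc x) _ _ (Setoid.symm (Quotient.exact e2))))
        exact (c x).injective (hxy.trans e3.symm)) (fun x => ⟨c x, hc x, rfl⟩) (by
        intro x y hxy
        by_cases hrxy : r x y
        · refine ⟨c x, hc x, rfl, ?_⟩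
          refine key _ (hc x) y ?_
          rw [← Quotient.sound hrxy, ← hcσ x]
          exact Quotient.sound (hr _ (hc x) _ _ (Setoid.symm hrxy))
        · obtain ⟨g, hg, e1, e2⟩ := h2 x y hxy hrxy
          exact ⟨g, hg, key g hg x e1, key g hg y e2⟩)
    exact ⟨τ, hτ, fun x => by rw [h3, hcσ]⟩)
  have hrvw : r v w := by
    rw [hrdef]
    have e1 := f1 1 G.one_mem
    have e2 := f3 1 G.one_mem
    simp only [Equiv.Perm.one_apply] at e1 e2
    rw [e1, e2]
  refine ⟨Quotient r, inferInstance, qg X r, (rho r hr).range,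
    card_quot_lt r hvw.ne hrvw, hobj, ⟨?_⟩⟩
  refine MonoidHom.ofInjective (f := rho r hr) ?_
  rw [injective_iff_map_eq_one]
  rintro ⟨g, hg⟩ e
  apply Subtype.ext
  ext x
  have e1 : rho r hr ⟨g, hg⟩ (Quotient.mk r x) = Quotient.mk r x := by rw [e]; rfl
  exact htriv g hg x (Quotient.exact e1)

end Pool.Agent.Lib.MP_b06295_co
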