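import Pool.Agent.Lib.MP_b06295_co.B1
import Pool.Agent.Lib.MP_b06295_co.Quot

/-!
# The wreath product decomposition

If some element of the group is supported in a component `K` of the tame graph then contraction of
all translates of `K` exhibits the group as a wreath product.
-/

set_option autoImplicit false

namespace Pool.Agent.Lib.MP_b06295_co

open Relation Obj

variable {V : Type} {k N : ℕ} {X : SimpleGraph V} {G : Subgroup (Equiv.Perm V)} {v : V}

/-- The data of this case. -/
structure Wr (X : SimpleGraph V) (G : Subgroup (Equiv.Perm V)) (v : V) : Prop where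
  tame : v ∈ Obj.tame X G
  reg : ∀ x y, y ∈ comp X G x → ∃ g ∈ G, g x = y
  fix : ∀ x ∈ orb G v, ∀ g ∈ setStab G (comp X G x), ∀ n ∈ bd X G x, g n = n

/-- The partition into the translates of the component and singletons. -/
def wrS (D : Wr X G v) : Setoid V where
  r x y := x = y ∨ (x ∈ orb G v ∧ y ∈ comp X G x)
  iseqv := by
    refine ⟨fun x => Or.inl rfl, ?_, ?_⟩
    · rintro x y (rfl | ⟨hx, hy⟩)
      · exact Or.inl rfl
      · right
        obtain ⟨g, hg, rfl⟩ := D.reg x y hy
        obtain ⟨u, hu, rfl⟩ := hx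
        exact ⟨⟨g * u, G.mul_mem hg hu, rfl⟩, comp_symm hy⟩
    · rintro x y z (rfl | ⟨hx, hy⟩) (rfl | ⟨hy', hz⟩)
      · exact Or.inl rfl
      · exact Or.inr ⟨hy', hz⟩
      · exact Or.inr ⟨hx, hy⟩
      · exact Or.inr ⟨hx, comp_trans hy hz⟩

theorem wrS_iff (D : Wr X G v) {x y : V} :
    Quotient.mk (wrS D) x = Quotient.mk (wrS D) y ↔ x = y ∨ (x ∈ orb G v ∧ y ∈ comp X G x) := by
  rw [Quotient.eq]
  exact Iff.rfl

theorem orb_smul {g : Equiv.Perm V} (hg : g ∈ G) {x : V} (hx : x ∈ orb G v) : g x ∈ orb G v := by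
  obtain ⟨u, hu, rfl⟩ := hx
  exact ⟨g * u, G.mul_mem hg hu, rfl⟩

theorem wrS_inv (h : Obj k N X G) (D : Wr X G v) :
    ∀ g ∈ G, ∀ x y, wrS D x y → wrS D (g x) (g y) := by
  rintro g hg x y (rfl | ⟨hx, hy⟩)
  · exact Or.inl rfl
  · exact Or.inr ⟨orb_smul hg hx, h.comp_smul hg hy⟩

theorem mk_smul (h : Obj k N X G) (D : Wr X G v) {g : Equiv.Perm V} (hg : g ∈ G) {x y : V}
    (hxy : Quotient.mk (wrS D) x = Quotient.mk (wrS D) y) :
    Quotient.mk (wrS D) (g x) = Quotient.mk (wrS D) (g y) :=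
  Quotient.sound (wrS_inv h D g hg x y (Quotient.exact hxy))

theorem orb_of_mk (D : Wr X G v) {x y : V} (hxy : Quotient.mk (wrS D) x = Quotient.mk (wrS D) y)
    (hx : x ∈ orb G v) : y ∈ orb G v := by
  rcases (wrS_iff D).1 hxy with rfl | ⟨h1, h2⟩
  · exact hx
  · obtain ⟨g, hg, rfl⟩ := D.reg x y h2
    exact orb_smul hg hx

theorem key1 (D : Wr X G v) {x : V} (hx : x ∉ orb G v) {g u : Equiv.Perm V} (hg : g ∈ G)
    (e : Quotient.mk (wrS D) (g x) = Quotient.mk (wrS D) (u x)) : g x = u x := by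
  rcases (wrS_iff D).1 e with h1 | ⟨h1, -⟩
  · exact h1
  · exfalso
    have := orb_smul (G.inv_mem hg) h1
    rw [inv_app] at this
    exact hx this

theorem comp_of_mk (D : Wr X G v) {x y : V} (e : Quotient.mk (wrS D) x = Quotient.mk (wrS D) y) :
    y ∈ comp X G x := by
  rcases (wrS_iff D).1 e with rfl | ⟨h1, h2⟩
  · exact comp_self _
  · exact h2

theorem mk_of_comp (D : Wr X G v) {x y : V} (hx : x ∈ orb G v) (hy : y ∈ comp X G x) :
    Quotient.mk (wrS D) x = Quotient.mk (wrS D) y :=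
  (wrS_iff D).2 (Or.inr ⟨hx, hy⟩)

theorem key2 (h : Obj k N X G) (D : Wr X G v) {x : V} {g u : Equiv.Perm V}
    (hg : g ∈ G) (hu : u ∈ G) (e : Quotient.mk (wrS D) (g x) = Quotient.mk (wrS D) (u x)) :
    u⁻¹ * g ∈ setStab G (comp X G x) := by
  refine h.setStab_of_mem (G.mul_mem (G.inv_mem hu) hg) (comp_self x) ?_
  have h1 := comp_of_mk D (mk_smul h D (G.inv_mem hu) e)
  rw [inv_app] at h1
  exact comp_symm h1

/-- Glueing of elements of the group along the classes. -/
theorem glue [Finite V] (h : Obj k N X G) (D : Wr X G v)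
    (σ : Equiv.Perm (Quotient (wrS D)))
    (hσ : ∀ x y, X.Adj x y → ¬ wrS D x y → ∃ g ∈ G,
      Quotient.mk (wrS D) (g x) = σ (Quotient.mk (wrS D) x) ∧
        Quotient.mk (wrS D) (g y) = σ (Quotient.mk (wrS D) y))
    (c : Quotient (wrS D) → Equiv.Perm V) (hc : ∀ q, c q ∈ G)
    (hcσ : ∀ x, Quotient.mk (wrS D) (c (Quotient.mk (wrS D) x) x) = σ (Quotient.mk (wrS D) x)) :
    ∃ τ ∈ G, ∀ x, τ x = c (Quotient.mk (wrS D) x) x := by
  refine h.mem_of_fun (fun x => c (Quotient.mk (wrS D) x) x) ?_ ?_ ?_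
  · intro x y (e : c (Quotient.mk (wrS D) x) x = c (Quotient.mk (wrS D) y) y)
    have e1 : σ (Quotient.mk (wrS D) x) = σ (Quotient.mk (wrS D) y) := by
      rw [← hcσ, ← hcσ, e]
    have e2 := σ.injective e1
    rw [e2] at e
    exact (c _).injective e
  · exact fun x => ⟨c (Quotient.mk (wrS D) x), hc _, rfl⟩
  · intro x y hxy
    by_cases hr : wrS D x y
    · have e : Quotient.mk (wrS D) x = Quotient.mk (wrS D) y := Quotient.sound hr
      exact ⟨c (Quotient.mk (wrS D) x), hc _, rfl, by rw [e]⟩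
    · obtain ⟨g, hg, e1, e2⟩ := hσ x y hxy hr
      have key : ∀ x y, X.Adj x y → ¬ wrS D x y → x ∈ orb G v →
          Quotient.mk (wrS D) (g x) = σ (Quotient.mk (wrS D) x) →
          Quotient.mk (wrS D) (g y) = σ (Quotient.mk (wrS D) y) →
          c (Quotient.mk (wrS D) x) y = c (Quotient.mk (wrS D) y) y := by
        intro x y hxy hr hx e1 e2
        have hyc : y ∉ comp X G x := fun hy => hr (Or.inr ⟨hx, hy⟩)
        have hxt : x ∈ Obj.tame X G := by
          obtain ⟨u, hu, rfl⟩ := hx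
          exact h.tame_smul hu D.tame
        have hyo : y ∉ orb G v := by
          rintro ⟨u, hu, rfl⟩
          exact hyc (comp_nbr hxt (comp_self x) hxy (h.tame_smul hu D.tame))
        have h1 := key2 h D hg (hc (Quotient.mk (wrS D) x)) (e1.trans (hcσ x).symm)
        have h2 := D.fix x hx _ h1 y ⟨hyc, x, comp_self x, hxy⟩
        have h3 : g y = c (Quotient.mk (wrS D) x) y := by
          have h4 := congrArg (c (Quotient.mk (wrS D) x)) h2
          rwa [Equiv.Perm.mul_apply, app_inv] at h4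
        rw [← h3]
        exact key1 D hyo hg (e2.trans (hcσ y).symm)
      by_cases hx : x ∈ orb G v
      · exact ⟨c (Quotient.mk (wrS D) x), hc _, rfl, key x y hxy hr hx e1 e2⟩
      · by_cases hy : y ∈ orb G v
        · exact ⟨c (Quotient.mk (wrS D) y), hc _,
            key y x hxy.symm (fun e => hr ((wrS D).symm e)) hy e2 e1, rfl⟩
        · exact ⟨g, hg, key1 D hx hg (e1.trans (hcσ x).symm), key1 D hy hg (e2.trans (hcσ y).symm)⟩

theorem wr_obj [Finite V] (h : Obj k N X G) (D : Wr X G v) :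
    Obj k N (qg X (wrS D)) (rho (wrS D) (wrS_inv h D)).range := by
  classical
  refine quot_obj h (wrS D) (wrS_inv h D) ?_ ?_
  · rintro ⟨x⟩
    change Conn X {y | Quotient.mk (wrS D) y = Quotient.mk (wrS D) x}
    by_cases hx : x ∈ orb G v
    · have : {y | Quotient.mk (wrS D) y = Quotient.mk (wrS D) x} = comp X G x := by
        ext y
        constructor
        · intro (e : Quotient.mk (wrS D) y = Quotient.mk (wrS D) x)
          exact comp_symm (comp_of_mk D e)
        · intro hy
          exact (mk_of_comp D hx hy).symm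
      rw [this]
      exact comp_conn x
    · have : {y | Quotient.mk (wrS D) y = Quotient.mk (wrS D) x} = {x} := by
        ext y
        constructor
        · intro (e : Quotient.mk (wrS D) y = Quotient.mk (wrS D) x)
          rcases (wrS_iff D).1 e.symm with h1 | ⟨h1, -⟩
          · exact h1.symm
          · exact absurd h1 hx
        · rintro rfl
          rfl
      rw [this]
      exact conn_singleton x
  · intro σ h1 h2
    have h1' : ∀ q : Quotient (wrS D), ∃ g ∈ G, ∀ x, Quotient.mk (wrS D) x = q →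
        Quotient.mk (wrS D) (g x) = σ q := by
      rintro ⟨x⟩
      obtain ⟨g, hg, e⟩ := h1 x
      exact ⟨g, hg, fun y hy => (mk_smul h D hg hy).trans e⟩
    choose c hc hcσ using h1'
    obtain ⟨τ, hτ, h3⟩ := glue h D σ h2 c hc fun x => hcσ _ x rfl
    exact ⟨τ, hτ, fun x => by rw [h3]; exact hcσ _ x rfl⟩

end Pool.Agent.Lib.MP_b06295_co
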